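import Pool.Agent.K7.H79.RZ.Step

/-!
# Means over the circle
-/

set_option autoImplicit false

open MeasureTheory Complex Real Filter Topology Metric
open scoped ENNReal NNReal

namespace Pool.Agent.K7.H79.RZ

/-- the unit circle -/
noncomputable def cc (φ : UnitAddCircle) : ℂ := (AddCircle.toCircle φ : ℂ)

lemma norm_cc (φ : UnitAddCircle) : ‖cc φ‖ = 1 := Circle.norm_coe _

lemma cc_add (φ ψ : UnitAddCircle) : cc (φ + ψ) = cc φ * cc ψ := by
  unfold cc
  rw [AddCircle.toCircle_add, Circle.coe_mul]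

lemma cc_continuous : Continuous cc :=
  (continuous_subtype_val : Continuous fun z : Circle => (z : ℂ)).comp
    AddCircle.continuous_toCircle

lemma cc_coe (t : ℝ) : cc (t : UnitAddCircle) = circleMap 0 1 (2 * π * t) := by
  unfold cc circleMap
  rw [AddCircle.toCircle_apply_mk, Circle.coe_exp]
  simp

lemma int_circle (g : ℂ → ℂ) : ∫ φ : UnitAddCircle, g (cc φ) = circleAverage g 0 1 := by
  rw [← UnitAddCircle.intervalIntegral_preimage 0, zero_add, circleAverage_def]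
  simp_rw [cc_coe]
  rw [intervalIntegral.integral_comp_mul_left (fun θ => g (circleMap 0 1 θ))
    (by positivity : (2 * π : ℝ) ≠ 0)]
  simp

lemma lint_rot (F : ℂ → ℝ≥0∞) {c : ℂ} (hc : ‖c‖ = 1) :
    ∫⁻ φ : UnitAddCircle, F (cc φ * c) = ∫⁻ φ : UnitAddCircle, F (cc φ) := by
  obtain ⟨ψ, hψ⟩ : ∃ ψ : UnitAddCircle, cc ψ = c := by
    refine ⟨((arg c / (2 * π) : ℝ) : UnitAddCircle), ?_⟩
    rw [cc_coe, circleMap, mul_div_cancel₀ _ (by positivity : (2 * π : ℝ) ≠ 0)]
    have := Complex.norm_mul_exp_arg_mul_I c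
    rw [hc] at this
    rw [zero_add]
    exact this
  rw [← hψ]
  simp_rw [← cc_add]
  exact lintegral_add_right_eq_self (fun φ => F (cc φ)) ψ

theorem posRe {f : ℂ → ℂ} (hf : ∀ z, ‖z‖ ≤ 1 → DifferentiableAt ℂ f z)
    (hpos : ∀ z, ‖z‖ ≤ 1 → 0 < (f z).re) {q : ℝ} (hq : 0 < q) (hq1 : q < 1) :
    ∫⁻ φ : UnitAddCircle, ‖f (cc φ)‖ₑ ^ q
      ≤ ENNReal.ofReal (‖f 0‖ ^ q / Real.cos (q * π / 2)) := by
  have hcos : 0 < Real.cos (q * π / 2) := by
    apply Real.cos_pos_of_mem_Ioo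
    constructor <;> nlinarith [Real.pi_pos]
  set g : ℂ → ℂ := fun z => f z ^ (q : ℂ) with hg
  have hgd : ∀ z, ‖z‖ ≤ 1 → DifferentiableAt ℂ g z := by
    intro z hz
    exact (hf z hz).cpow (differentiableAt_const _) (Or.inl (hpos z hz))
  have havg : circleAverage g 0 1 = g 0 := by
    apply DiffContOnCl.circleAverage
    rw [abs_one]
    apply DifferentiableOn.diffContOnCl
    rw [closure_ball _ one_ne_zero]
    intro z hz
    exact (hgd z (by simpa using hz)).differentiableWithinAt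
  have hgn : ∀ z, ‖g z‖ = ‖f z‖ ^ q := fun z => norm_cpow_real _ _
  have hre : ∀ z, ‖z‖ ≤ 1 → ‖f z‖ ^ q * Real.cos (q * π / 2) ≤ (g z).re := by
    intro z hz
    have h0 : f z ≠ 0 := by
      intro h
      have := hpos z hz
      rw [h] at this
      simp at this
    have hn : 0 < ‖f z‖ := norm_pos_iff.2 h0
    simp only [hg]
    rw [Complex.cpow_def_of_ne_zero h0, Complex.exp_re]
    have e1 : (Complex.log (f z) * (q : ℂ)).re = Real.log ‖f z‖ * q := by
      rw [Complex.re_mul_ofReal, Complex.log_re]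
    have e2 : (Complex.log (f z) * (q : ℂ)).im = arg (f z) * q := by
      rw [Complex.im_mul_ofReal, Complex.log_im]
    rw [e1, e2, ← Real.rpow_def_of_pos hn]
    apply mul_le_mul_of_nonneg_left _ (by positivity)
    have h1 : |arg (f z)| ≤ π / 2 := Complex.abs_arg_le_pi_div_two_iff.2 (hpos z hz).le
    rw [← Real.cos_abs (arg (f z) * q), abs_mul, abs_of_pos hq]
    apply Real.cos_le_cos_of_nonneg_of_le_pi (by positivity)
    · nlinarith [Real.pi_pos]
    · nlinarith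
  have hfc : Continuous fun φ => f (cc φ) := by
    rw [continuous_iff_continuousAt]
    intro φ
    exact ContinuousAt.comp (g := f) (hf _ (norm_cc φ).le).continuousAt cc_continuous.continuousAt
  have hgc : Continuous fun φ => g (cc φ) := by
    rw [continuous_iff_continuousAt]
    intro φ
    exact ContinuousAt.comp (g := g) (hgd _ (norm_cc φ).le).continuousAt cc_continuous.continuousAt
  have hgi : Integrable fun φ : UnitAddCircle => g (cc φ) :=
    hgc.integrable_of_hasCompactSupport (HasCompactSupport.of_compactSpace _)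
  have hfn : Continuous fun φ => ‖f (cc φ)‖ ^ q := by
    have : (fun φ => ‖f (cc φ)‖ ^ q) = fun φ => ‖g (cc φ)‖ := by
      ext φ; rw [hgn]
    rw [this]; exact hgc.norm
  have hfi : Integrable fun φ : UnitAddCircle => ‖f (cc φ)‖ ^ q :=
    hfn.integrable_of_hasCompactSupport (HasCompactSupport.of_compactSpace _)
  have hmain : (∫ φ : UnitAddCircle, ‖f (cc φ)‖ ^ q) * Real.cos (q * π / 2) ≤ ‖f 0‖ ^ q := by
    rw [← integral_mul_const]
    calc ∫ φ : UnitAddCircle, ‖f (cc φ)‖ ^ q * Real.cos (q * π / 2)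
        ≤ ∫ φ : UnitAddCircle, (g (cc φ)).re := by
          apply integral_mono (hfi.mul_const _) hgi.re
          intro φ
          exact hre _ (norm_cc φ).le
      _ = (∫ φ : UnitAddCircle, g (cc φ)).re := integral_re hgi
      _ = (g 0).re := by rw [int_circle, havg]
      _ ≤ ‖g 0‖ := Complex.re_le_norm _
      _ = ‖f 0‖ ^ q := hgn 0
  have e : ∀ φ : UnitAddCircle, ‖f (cc φ)‖ₑ ^ q = ENNReal.ofReal (‖f (cc φ)‖ ^ q) := by
    intro φ
    rw [← ofReal_norm, ENNReal.ofReal_rpow_of_nonneg (norm_nonneg _) hq.le]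
  simp_rw [e]
  rw [← ofReal_integral_eq_lintegral_ofReal hfi (ae_of_all _ fun φ => by positivity)]
  apply ENNReal.ofReal_le_ofReal
  rw [le_div_iff₀ hcos]
  exact hmain

instance : IsProbabilityMeasure (volume : Measure UnitAddCircle) := ⟨UnitAddCircle.measure_univ⟩

/-- Poisson type identity -/
lemma re_moeb {w : ℂ} (hw : ‖w‖ < 1) : ((1 + w) / (1 - w)).re = (1 - ‖w‖ ^ 2) / ‖1 - w‖ ^ 2 := by
  have h1 : (1 - w) ≠ 0 := by
    intro h
    have : w = 1 := by linear_combination -h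
    rw [this] at hw
    simp at hw
  have h2 : (1 + w) / (1 - w) = ((1 + w) * (starRingEnd ℂ) (1 - w)) / ((‖1 - w‖ ^ 2 : ℝ) : ℂ) := by
    have h3 : (1 - w) * (starRingEnd ℂ) (1 - w) = ((‖1 - w‖ ^ 2 : ℝ) : ℂ) := by
      rw [Complex.mul_conj, Complex.normSq_eq_norm_sq]
    rw [← h3]
    have h4 : (starRingEnd ℂ) (1 - w) ≠ 0 := by
      rw [map_ne_zero]; exact h1
    field_simp
  rw [h2, Complex.div_ofReal_re]
  congr 1
  rw [← Complex.normSq_eq_norm_sq w, Complex.normSq_apply]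
  simp only [map_sub, map_one, Complex.mul_re, Complex.add_re, Complex.one_re, Complex.sub_re,
    Complex.conj_re, Complex.add_im, Complex.one_im, Complex.sub_im, Complex.conj_im]
  ring

lemma one_sub_ne {w : ℂ} (hw : ‖w‖ < 1) : (1 - w) ≠ 0 := by
  intro h
  have : w = 1 := by linear_combination -h
  rw [this] at hw
  simp at hw

lemma geom_id {w : ℂ} (hw : ‖w‖ < 1) (M : ℕ) :
    1 + 2 * ∑ m ∈ Finset.range M, w ^ (m + 1) = (1 + w) / (1 - w) - 2 * w ^ (M + 1) / (1 - w) := by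
  have h1 := one_sub_ne hw
  induction M with
  | zero =>
    simp only [Finset.range_zero, Finset.sum_empty, mul_zero, add_zero, zero_add, pow_one]
    field_simp
    ring
  | succ M ih =>
    rw [Finset.sum_range_succ, mul_add, ← add_assoc, ih]
    field_simp
    ring

/-- the analytic function of the wave -/
noncomputable def GG (r a b : ℝ) (z : ℂ) : ℂ := a + I * b * ((1 + r * z) / (1 - r * z))

lemma norm_rz {r : ℝ} (hr : 0 < r) (hr1 : r < 1) {z : ℂ} (hz : ‖z‖ ≤ 1) : ‖(r : ℂ) * z‖ < 1 := by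
  rw [norm_mul, Complex.norm_real, Real.norm_eq_abs, abs_of_pos hr]
  nlinarith

lemma hd1 (r : ℝ) (z : ℂ) : DifferentiableAt ℂ (fun y : ℂ => 1 + (r : ℂ) * y) z := by fun_prop

lemma hd2 (r : ℝ) (z : ℂ) : DifferentiableAt ℂ (fun y : ℂ => 1 - (r : ℂ) * y) z := by fun_prop

lemma GG_mean {p : ℝ} (hp : 0 < p) (hp1 : p < 1) {r : ℝ} (hr : 0 < r) (hr1 : r < 1) {a b : ℝ}
    (hb : 0 ≤ b) : ∫⁻ φ : UnitAddCircle, ‖GG r a b (cc φ)‖ₑ ^ p
      ≤ ENNReal.ofReal (√(a ^ 2 + b ^ 2) ^ p / Real.cos (p * π / 2)) := by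
  have hcos : 0 < Real.cos (p * π / 2) := by
    apply Real.cos_pos_of_mem_Ioo
    constructor <;> nlinarith [Real.pi_pos]
  rcases hb.eq_or_lt with h0 | h0
  · subst h0
    have e1 : ∀ z, GG r a 0 z = a := by intro z; unfold GG; simp
    simp_rw [e1]
    rw [lintegral_const, measure_univ, mul_one, ← ofReal_norm,
      ENNReal.ofReal_rpow_of_nonneg (norm_nonneg _) hp.le]
    apply ENNReal.ofReal_le_ofReal
    have e2 : √(a ^ 2 + 0 ^ 2) = ‖(a : ℂ)‖ := by
      rw [Complex.norm_real, Real.norm_eq_abs, ← Real.sqrt_sq_eq_abs]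
      congr 1
      ring
    rw [e2]
    apply le_div_self (by positivity) hcos (Real.cos_le_one _)
  · set H : ℂ → ℂ := fun z => b * ((1 + r * z) / (1 - r * z)) - I * a with hH
    have e1 : ∀ z, ‖GG r a b z‖ₑ = ‖H z‖ₑ := by
      intro z
      have : GG r a b z = I * H z := by
        simp only [GG, hH]
        linear_combination (a : ℂ) * Complex.I_sq
      rw [this, ← ofReal_norm, ← ofReal_norm, norm_mul, Complex.norm_I, one_mul]
    simp_rw [e1]
    have h2 := posRe (f := H) (fun z hz => ?_) (fun z hz => ?_) hp hp1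
    · refine h2.trans (le_of_eq ?_)
      congr 3
      have : H 0 = (b : ℂ) - I * a := by simp [hH]
      rw [this, Complex.norm_eq_sqrt_sq_add_sq]
      congr 1
      simp
      ring
    · have := one_sub_ne (norm_rz hr hr1 hz)
      apply DifferentiableAt.sub_const
      apply DifferentiableAt.const_mul
      exact (hd1 r z).fun_div (hd2 r z) this
    · have h3 : (H z).re = b * ((1 + r * z) / (1 - r * z)).re := by
        simp only [hH]
        simp
      rw [h3, re_moeb (norm_rz hr hr1 hz)]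
      have h4 := norm_pos_iff.2 (one_sub_ne (norm_rz hr hr1 hz))
      have h5 := norm_rz hr hr1 hz
      have h6 : 0 < 1 - ‖(r : ℂ) * z‖ ^ 2 := by nlinarith [norm_nonneg ((r : ℂ) * z)]
      positivity

lemma GG_im_mean {p : ℝ} (hp : 0 < p) (hp1 : p < 1 / 2) {r : ℝ} (hr : 0 < r) (hr1 : r < 1)
    {a b : ℝ} (hb : 0 ≤ b) : ∫⁻ φ : UnitAddCircle, ‖(GG r a b (cc φ)).im‖ₑ ^ p
      ≤ ENNReal.ofReal (b ^ p * (1 - r ^ 2) ^ p / Real.cos (p * π)) := by
  have h1 := posRe (f := fun z => (1 - r * z)⁻¹) (fun z hz => ?_) (fun z hz => ?_)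
    (by linarith : 0 < 2 * p) (by linarith : 2 * p < 1)
  · have e1 : ∀ φ : UnitAddCircle, ‖(GG r a b (cc φ)).im‖ₑ ^ p
        = ENNReal.ofReal (b ^ p * (1 - r ^ 2) ^ p) * ‖(1 - r * cc φ)⁻¹‖ₑ ^ (2 * p) := by
      intro φ
      have hz := norm_cc φ
      have e2 : (GG r a b (cc φ)).im = b * ((1 - r ^ 2) / ‖1 - (r : ℂ) * cc φ‖ ^ 2) := by
        have := re_moeb (norm_rz hr hr1 hz.le)
        rw [norm_mul, hz, mul_one, Complex.norm_real, Real.norm_eq_abs, sq_abs] at this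
        rw [← this]
        simp [GG]
      have h3 : 0 ≤ 1 - r ^ 2 := by nlinarith
      have h4 := norm_pos_iff.2 (one_sub_ne (norm_rz hr hr1 hz.le))
      rw [e2, ← ofReal_norm, Real.norm_eq_abs, abs_of_nonneg (by positivity), ← ofReal_norm,
        ENNReal.ofReal_rpow_of_nonneg (by positivity) hp.le,
        ENNReal.ofReal_rpow_of_nonneg (by positivity) (by positivity),
        ← ENNReal.ofReal_mul (by positivity)]
      congr 1
      rw [Real.mul_rpow hb (by positivity), Real.div_rpow h3 (by positivity), norm_inv,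
        Real.inv_rpow (by positivity), Real.rpow_mul (by positivity), Real.rpow_two]
      ring
    simp_rw [e1]
    rw [lintegral_const_mul' _ _ ENNReal.ofReal_ne_top]
    calc ENNReal.ofReal (b ^ p * (1 - r ^ 2) ^ p) *
          ∫⁻ φ : UnitAddCircle, ‖(1 - r * cc φ)⁻¹‖ₑ ^ (2 * p)
        ≤ ENNReal.ofReal (b ^ p * (1 - r ^ 2) ^ p) * ENNReal.ofReal (‖(1 - (r : ℂ) * 0)⁻¹‖ ^ (2 * p)
          / Real.cos (2 * p * π / 2)) := mul_le_mul_right h1 _
      _ = ENNReal.ofReal (b ^ p * (1 - r ^ 2) ^ p / Real.cos (p * π)) := by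
          have h3 : 0 ≤ 1 - r ^ 2 := by nlinarith
          rw [← ENNReal.ofReal_mul (by positivity)]
          congr 1
          have e4 : 2 * p * π / 2 = p * π := by ring
          rw [e4]
          simp
          ring
  · have := one_sub_ne (norm_rz hr hr1 hz)
    exact (hd2 r z).fun_inv this
  · have h3 : 0 < (1 - (r : ℂ) * z).re := by
      rw [Complex.sub_re, Complex.one_re]
      have := Complex.re_le_norm ((r : ℂ) * z)
      have := norm_rz hr hr1 hz
      linarith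
    rw [Complex.inv_re]
    apply div_pos h3
    rw [Complex.normSq_pos]
    exact one_sub_ne (norm_rz hr hr1 hz)

/-- the truncated wave -/
noncomputable def PP (r a b : ℝ) (M : ℕ) (z : ℂ) : ℂ :=
  a + I * b * (1 + 2 * ∑ m ∈ Finset.range M, (r * z) ^ (m + 1))

lemma PP_sub_GG {r : ℝ} (hr : 0 < r) (hr1 : r < 1) {a b : ℝ} (hb : 0 ≤ b) (M : ℕ) {z : ℂ}
    (hz : ‖z‖ = 1) : ‖PP r a b M z - GG r a b z‖ ≤ b * (2 * r ^ (M + 1) / (1 - r)) := by
  have h1 := norm_rz hr hr1 hz.le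
  have h2 := one_sub_ne h1
  have e : PP r a b M z - GG r a b z = -(I * b * (2 * (r * z) ^ (M + 1) / (1 - r * z))) := by
    unfold PP GG
    rw [geom_id h1]
    ring
  rw [e, norm_neg, norm_mul, norm_mul, Complex.norm_I, one_mul, Complex.norm_real,
    Real.norm_eq_abs, abs_of_nonneg hb]
  apply mul_le_mul_of_nonneg_left _ hb
  rw [norm_div, norm_mul, norm_pow, norm_mul, hz, mul_one, Complex.norm_real, Real.norm_eq_abs,
    abs_of_pos hr, Complex.norm_two]
  apply div_le_div_of_nonneg_left (by positivity) (by linarith)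
  have := norm_sub_norm_le (1 : ℂ) ((r : ℂ) * z)
  rw [norm_mul, hz, mul_one, Complex.norm_real, Real.norm_eq_abs, abs_of_pos hr, norm_one] at this
  exact this

lemma enorm_add_rpow_le' {G : Type*} [NormedAddCommGroup G] {p : ℝ} (hp : 0 < p) (hp1 : p ≤ 1)
    (x y : G) : ‖x + y‖ₑ ^ p ≤ ‖x‖ₑ ^ p + ‖y‖ₑ ^ p :=
  (ENNReal.rpow_le_rpow (enorm_add_le _ _) hp.le).trans (ENNReal.rpow_add_le_add_rpow _ _ hp.le hp1)

lemma PP_mean {p : ℝ} (hp : 0 < p) (hp1 : p < 1 / 2) {r : ℝ} (hr : 0 < r) (hr1 : r < 1)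
    {lam : ℝ} (hl : 0 ≤ lam) (M : ℕ) {a b : ℝ} (hb : 0 ≤ b) {c : ℂ} (hc : ‖c‖ = 1) :
    ∫⁻ φ : UnitAddCircle, (ENNReal.ofReal lam * ‖(PP r a b M (cc φ * c)).re‖ₑ ^ p
        + ‖(PP r a b M (cc φ * c)).im‖ₑ ^ p)
      ≤ ENNReal.ofReal ((lam / Real.cos (p * π / 2) + ((1 - r ^ 2) ^ p / Real.cos (p * π)
          + (lam + 1) * (2 * r ^ (M + 1) / (1 - r)) ^ p)) * √(a ^ 2 + b ^ 2) ^ p) := by
  have hp1' : p ≤ 1 := by linarith
  have hcos : 0 < Real.cos (p * π / 2) := by
    apply Real.cos_pos_of_mem_Ioo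
    constructor <;> nlinarith [Real.pi_pos]
  have hcos2 : 0 < Real.cos (p * π) := by
    apply Real.cos_pos_of_mem_Ioo
    constructor <;> nlinarith [Real.pi_pos]
  have h3 : 0 ≤ 1 - r ^ 2 := by nlinarith
  have h4 : 0 < 1 - r := by linarith
  set D : ℝ := b * (2 * r ^ (M + 1) / (1 - r)) with hD
  have hD0 : 0 ≤ D := by positivity
  rw [lint_rot (fun z => ENNReal.ofReal lam * ‖(PP r a b M z).re‖ₑ ^ p
        + ‖(PP r a b M z).im‖ₑ ^ p) hc]
  have hpt : ∀ φ : UnitAddCircle, ENNReal.ofReal lam * ‖(PP r a b M (cc φ)).re‖ₑ ^ p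
        + ‖(PP r a b M (cc φ)).im‖ₑ ^ p ≤ ENNReal.ofReal lam * ‖GG r a b (cc φ)‖ₑ ^ p +
        (‖(GG r a b (cc φ)).im‖ₑ ^ p + ENNReal.ofReal ((lam + 1) * D ^ p)) := by
    intro φ
    have hz := norm_cc φ
    set P := PP r a b M (cc φ) with hP
    set G := GG r a b (cc φ) with hG
    have hDn : ‖P - G‖ₑ ^ p ≤ ENNReal.ofReal (D ^ p) := by
      rw [← ENNReal.ofReal_rpow_of_nonneg hD0 hp.le, ← ofReal_norm]
      exact ENNReal.rpow_le_rpow (ENNReal.ofReal_le_ofReal (PP_sub_GG hr hr1 hb M hz)) hp.le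
    have h5 : ‖P.re‖ₑ ^ p ≤ ‖G‖ₑ ^ p + ENNReal.ofReal (D ^ p) := by
      have : ‖P.re‖ₑ ≤ ‖G + (P - G)‖ₑ := by
        rw [add_sub_cancel, ← ofReal_norm, ← ofReal_norm]
        exact ENNReal.ofReal_le_ofReal (Complex.abs_re_le_norm _)
      exact (ENNReal.rpow_le_rpow this hp.le).trans
        ((enorm_add_rpow_le' hp hp1' _ _).trans (add_le_add le_rfl hDn))
    have h6 : ‖P.im‖ₑ ^ p ≤ ‖G.im‖ₑ ^ p + ENNReal.ofReal (D ^ p) := by
      have e7 : P.im = G.im + (P - G).im := by rw [Complex.sub_im]; ring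
      rw [e7]
      refine (enorm_add_rpow_le' hp hp1' _ _).trans (add_le_add le_rfl (le_trans ?_ hDn))
      apply ENNReal.rpow_le_rpow _ hp.le
      rw [← ofReal_norm, ← ofReal_norm]
      exact ENNReal.ofReal_le_ofReal (Complex.abs_im_le_norm _)
    calc ENNReal.ofReal lam * ‖P.re‖ₑ ^ p + ‖P.im‖ₑ ^ p
        ≤ ENNReal.ofReal lam * (‖G‖ₑ ^ p + ENNReal.ofReal (D ^ p))
          + (‖G.im‖ₑ ^ p + ENNReal.ofReal (D ^ p)) :=
          add_le_add (mul_le_mul_right h5 _) h6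
      _ = ENNReal.ofReal lam * ‖G‖ₑ ^ p + (‖G.im‖ₑ ^ p + ENNReal.ofReal ((lam + 1) * D ^ p)) := by
          rw [ENNReal.ofReal_mul (by linarith), ENNReal.ofReal_add hl zero_le_one,
            ENNReal.ofReal_one]
          ring
  have hGc : Continuous fun φ : UnitAddCircle => GG r a b (cc φ) := by
    rw [continuous_iff_continuousAt]
    intro φ
    have h := one_sub_ne (norm_rz hr hr1 (norm_cc φ).le)
    have hd : DifferentiableAt ℂ (GG r a b) (cc φ) := by
      unfold GG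
      apply DifferentiableAt.const_add
      apply DifferentiableAt.const_mul
      exact (hd1 r _).fun_div (hd2 r _) h
    exact ContinuousAt.comp (g := GG r a b) hd.continuousAt cc_continuous.continuousAt
  have hm1 : Measurable fun φ : UnitAddCircle => ENNReal.ofReal lam * ‖GG r a b (cc φ)‖ₑ ^ p :=
    (hGc.measurable.enorm.pow_const _).const_mul _
  have hm2 : Measurable fun φ : UnitAddCircle => ‖(GG r a b (cc φ)).im‖ₑ ^ p :=
    ((Complex.continuous_im.comp hGc).measurable.enorm.pow_const _)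
  have hv : b ^ p ≤ √(a ^ 2 + b ^ 2) ^ p := by
    apply Real.rpow_le_rpow hb _ hp.le
    apply Real.le_sqrt_of_sq_le
    nlinarith [sq_nonneg a]
  calc ∫⁻ φ : UnitAddCircle, (ENNReal.ofReal lam * ‖(PP r a b M (cc φ)).re‖ₑ ^ p
        + ‖(PP r a b M (cc φ)).im‖ₑ ^ p)
      ≤ ∫⁻ φ : UnitAddCircle, (ENNReal.ofReal lam * ‖GG r a b (cc φ)‖ₑ ^ p +
        (‖(GG r a b (cc φ)).im‖ₑ ^ p + ENNReal.ofReal ((lam + 1) * D ^ p))) := lintegral_mono hpt
    _ = ENNReal.ofReal lam * (∫⁻ φ : UnitAddCircle, ‖GG r a b (cc φ)‖ₑ ^ p)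
        + ((∫⁻ φ : UnitAddCircle, ‖(GG r a b (cc φ)).im‖ₑ ^ p)
          + ENNReal.ofReal ((lam + 1) * D ^ p)) := by
        rw [lintegral_add_left hm1, lintegral_add_left hm2,
          lintegral_const_mul' _ _ ENNReal.ofReal_ne_top, lintegral_const, measure_univ, mul_one]
    _ ≤ ENNReal.ofReal lam * ENNReal.ofReal (√(a ^ 2 + b ^ 2) ^ p / Real.cos (p * π / 2))
        + (ENNReal.ofReal (b ^ p * (1 - r ^ 2) ^ p / Real.cos (p * π))
          + ENNReal.ofReal ((lam + 1) * D ^ p)) :=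
        add_le_add (mul_le_mul_right (GG_mean hp (by linarith) hr hr1 hb) _)
          (add_le_add (GG_im_mean hp hp1 hr hr1 hb) le_rfl)
    _ = ENNReal.ofReal (lam * (√(a ^ 2 + b ^ 2) ^ p / Real.cos (p * π / 2))
        + (b ^ p * (1 - r ^ 2) ^ p / Real.cos (p * π) + (lam + 1) * D ^ p)) := by
        rw [← ENNReal.ofReal_mul hl, ← ENNReal.ofReal_add (by positivity) (by positivity),
          ← ENNReal.ofReal_add (by positivity) (by positivity)]
    _ ≤ _ := by
        apply ENNReal.ofReal_le_ofReal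
        rw [hD, Real.mul_rpow hb (by positivity)]
        have e1 : lam * (√(a ^ 2 + b ^ 2) ^ p / Real.cos (p * π / 2))
            = lam / Real.cos (p * π / 2) * √(a ^ 2 + b ^ 2) ^ p := by ring
        have e2 : b ^ p * (1 - r ^ 2) ^ p / Real.cos (p * π)
            + (lam + 1) * (b ^ p * (2 * r ^ (M + 1) / (1 - r)) ^ p)
            = ((1 - r ^ 2) ^ p / Real.cos (p * π)
              + (lam + 1) * (2 * r ^ (M + 1) / (1 - r)) ^ p) * b ^ p := by ring
        rw [e1, e2, add_mul (lam / Real.cos (p * π / 2))]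
        apply add_le_add le_rfl
        apply mul_le_mul_of_nonneg_left hv
        positivity

lemma A_mean {p : ℝ} (hp : 0 < p) (hp1 : p < 1 / 2) {lam : ℝ} (hl : 0 ≤ lam) {δ : ℝ}
    (hδ : 0 < δ) : ∃ r : ℝ, 0 < r ∧ r < 1 ∧ ∃ M : ℕ, ∀ a b : ℝ, 0 ≤ b → ∀ c : ℂ, ‖c‖ = 1 →
    ∫⁻ φ : UnitAddCircle, (ENNReal.ofReal lam * ‖(PP r a b M (cc φ * c)).re‖ₑ ^ p
        + ‖(PP r a b M (cc φ * c)).im‖ₑ ^ p)
      ≤ ENNReal.ofReal ((lam / Real.cos (p * π / 2) + δ) * √(a ^ 2 + b ^ 2) ^ p) := by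
  have hcos2 : 0 < Real.cos (p * π) := by
    apply Real.cos_pos_of_mem_Ioo
    constructor <;> nlinarith [Real.pi_pos]
  obtain ⟨r, hr, hr1, hr2⟩ : ∃ r : ℝ, 0 < r ∧ r < 1 ∧ (1 - r ^ 2) ^ p / Real.cos (p * π)
      < δ / 2 := by
    have hc : ContinuousAt (fun r : ℝ => (1 - r ^ 2) ^ p / Real.cos (p * π)) 1 := by
      apply ContinuousAt.div_const
      apply ContinuousAt.rpow_const (by fun_prop) (Or.inr hp.le)
    have hlt : (1 - (1 : ℝ) ^ 2) ^ p / Real.cos (p * π) < δ / 2 := by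
      rw [one_pow, sub_self, Real.zero_rpow hp.ne', zero_div]
      positivity
    have h1 := hc.eventually_lt_const hlt
    have h2 : ∀ᶠ r : ℝ in 𝓝[<] 1, (1 - r ^ 2) ^ p / Real.cos (p * π) < δ / 2 :=
      h1.filter_mono nhdsWithin_le_nhds
    have h3 : ∀ᶠ r : ℝ in 𝓝[<] 1, 0 < r := by
      apply Filter.Eventually.filter_mono nhdsWithin_le_nhds
      exact lt_mem_nhds one_pos
    have h4 : ∀ᶠ r : ℝ in 𝓝[<] 1, r < 1 := eventually_mem_nhdsWithin
    obtain ⟨r, h5, h6, h7⟩ := (h2.and (h3.and h4)).exists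
    exact ⟨r, h6, h7, h5⟩
  obtain ⟨M, hM⟩ : ∃ M : ℕ, (lam + 1) * (2 * r ^ (M + 1) / (1 - r)) ^ p < δ / 2 := by
    have ht : Tendsto (fun M : ℕ => (lam + 1) * (2 * r ^ (M + 1) / (1 - r)) ^ p) atTop
        (𝓝 ((lam + 1) * (2 * 0 / (1 - r)) ^ p)) := by
      apply Tendsto.const_mul
      apply Tendsto.rpow_const _ (Or.inr hp.le)
      apply Tendsto.div_const
      apply Tendsto.const_mul
      exact (tendsto_pow_atTop_nhds_zero_of_lt_one hr.le hr1).comp (tendsto_add_atTop_nat 1)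
    rw [mul_zero, zero_div, Real.zero_rpow hp.ne', mul_zero] at ht
    exact (ht.eventually_lt_const (by positivity)).exists
  refine ⟨r, hr, hr1, M, fun a b hb c hc => (PP_mean hp hp1 hr hr1 hl M hb hc).trans ?_⟩
  apply ENNReal.ofReal_le_ofReal
  apply mul_le_mul_of_nonneg_right _ (by positivity)
  linarith

end Pool.Agent.K7.H79.RZ
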