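import Pool.Agent.K7.H79.RZ.ALem

/-!
# The first kind of step
-/

set_option autoImplicit false

open MeasureTheory Complex Real Filter Topology Metric
open scoped ENNReal NNReal

namespace Pool.Agent.K7.H79.RZ

lemma V_norm_sq (v : V) : ‖v‖ ^ 2 = v.fst ^ 2 + ‖v.snd‖ ^ 2 := by
  rw [WithLp.prod_norm_eq_of_L2, Real.sq_sqrt (by positivity), Real.norm_eq_abs, sq_abs]

lemma V_norm (v : V) : ‖v‖ = √(v.fst ^ 2 + ‖v.snd‖ ^ 2) := by
  rw [WithLp.prod_norm_eq_of_L2, Real.norm_eq_abs, sq_abs]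

lemma norm_fst_le (v : V) : ‖v.fst‖ ≤ ‖v‖ := by
  rw [Real.norm_eq_abs]
  apply abs_le_of_sq_le_sq _ (norm_nonneg _)
  rw [V_norm_sq]
  nlinarith [sq_nonneg ‖v.snd‖]

lemma norm_snd_le (v : V) : ‖v.snd‖ ≤ ‖v‖ := by
  apply le_of_sq_le_sq _ (norm_nonneg _)
  rw [V_norm_sq]
  nlinarith [sq_nonneg v.fst]

lemma enorm_le_of_norm_le {F G : Type*} [NormedAddCommGroup F] [NormedAddCommGroup G] {x : F}
    {y : G} (h : ‖x‖ ≤ ‖y‖) : ‖x‖ₑ ≤ ‖y‖ₑ := by
  rw [← ofReal_norm, ← ofReal_norm]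
  exact ENNReal.ofReal_le_ofReal h

/-- functional of the first step -/
noncomputable def PsiA (p lam : ℝ) (v : V) : ℝ≥0∞ :=
  ENNReal.ofReal lam * ‖v.fst‖ₑ ^ p + ‖v.snd‖ₑ ^ p

lemma V_fst_cont : Continuous fun v : V => v.fst :=
  (WithLp.prod_continuous_ofLp 2 ℝ E).fst
lemma V_snd_cont : Continuous fun v : V => v.snd :=
  (WithLp.prod_continuous_ofLp 2 ℝ E).snd

lemma funA {p lam : ℝ} (hp : 0 < p) (hp1 : p ≤ 1) :
    Fun p (PsiA p lam) (ENNReal.ofReal lam + 1) where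
  meas := by
    unfold PsiA
    exact ((V_fst_cont.measurable.enorm.pow_const _).const_mul _).add
      (V_snd_cont.measurable.enorm.pow_const _)
  sub v w := by
    unfold PsiA
    have h1 : ‖(v + w).fst‖ₑ ^ p ≤ ‖v.fst‖ₑ ^ p + ‖w.fst‖ₑ ^ p :=
      enorm_add_rpow_le' hp hp1 v.fst w.fst
    have h2 : ‖(v + w).snd‖ₑ ^ p ≤ ‖v.snd‖ₑ ^ p + ‖w.snd‖ₑ ^ p :=
      enorm_add_rpow_le' hp hp1 v.snd w.snd
    calc ENNReal.ofReal lam * ‖(v + w).fst‖ₑ ^ p + ‖(v + w).snd‖ₑ ^ p
        ≤ ENNReal.ofReal lam * (‖v.fst‖ₑ ^ p + ‖w.fst‖ₑ ^ p) + (‖v.snd‖ₑ ^ p + ‖w.snd‖ₑ ^ p) :=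
          add_le_add (mul_le_mul_right h1 _) h2
      _ = _ := by ring
  bd v := by
    unfold PsiA
    rw [add_mul, one_mul]
    refine add_le_add (mul_le_mul_right ?_ _) ?_
    · exact ENNReal.rpow_le_rpow (enorm_le_of_norm_le (norm_fst_le v)) hp.le
    · exact ENNReal.rpow_le_rpow (enorm_le_of_norm_le (norm_snd_le v)) hp.le
  fin := ENNReal.add_ne_top.2 ⟨ENNReal.ofReal_ne_top, ENNReal.one_ne_top⟩

lemma funB {p : ℝ} (hp : 0 < p) (hp1 : p ≤ 1) : Fun p (fun v : V => ‖v‖ₑ ^ p) 1 where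
  meas := measurable_id.enorm.pow_const _
  sub v w := enorm_add_rpow_le' hp hp1 v w
  bd v := by rw [one_mul]
  fin := ENNReal.one_ne_top

lemma fl_zero (k : E) : fl k 0 = 0 := by
  unfold fl
  simp only [Complex.zero_re, Complex.zero_im, zero_div, zero_smul]
  rfl

lemma fl_sum {ι : Type*} (s : Finset ι) (k : E) (c : ι → ℂ) :
    ∑ i ∈ s, fl k (c i) = fl k (∑ i ∈ s, c i) := by
  classical
  induction s using Finset.induction_on with
  | empty => simp [fl_zero]
  | insert i s hi ih => rw [Finset.sum_insert hi, Finset.sum_insert hi, ih, fl_add]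

lemma fl_smul {k : E} {t : ℝ} (ht : 0 < t) (c : ℂ) : fl (t • k) c = fl k c := by
  unfold fl
  congr 1
  rw [norm_smul, Real.norm_eq_abs, abs_of_pos ht, smul_smul]
  congr 1
  rcases eq_or_ne ‖k‖ 0 with h | h
  · rw [h]; simp
  · field_simp

lemma ex_nat_mul (n : ℕ) (s : ℝ) : ex (n * s) = ex s ^ n := by
  unfold ex
  rw [← Complex.exp_nat_mul]
  congr 1
  push_cast
  ring

lemma exists_net {γ : ℝ} (hγ : 0 < γ) : ∃ n : ℕ, ∃ e : ℕ → E, (∀ i, ‖e i‖ = 1) ∧
    ∀ u : E, ‖u‖ = 1 → ∃ i ≤ n, ‖e i - u‖ ≤ γ := by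
  obtain ⟨t, ht, htf, hc⟩ := (isCompact_sphere (0 : E) 1).finite_cover_balls hγ
  set L := htf.toFinset.toList with hL
  have hLt : ∀ x, x ∈ L ↔ x ∈ t := by
    intro x; rw [hL, Finset.mem_toList, Set.Finite.mem_toFinset]
  set u0 : E := EuclideanSpace.single 0 1 with hu0
  have hu0n : ‖u0‖ = 1 := by simp [hu0]
  refine ⟨L.length, fun i => if h : i < L.length then L[i] else u0, ?_, ?_⟩
  · intro i
    simp only
    split_ifs with h
    · have := ht ((hLt _).1 (List.getElem_mem h))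
      simpa using this
    · exact hu0n
  · intro u hu
    have h1 : u ∈ sphere (0 : E) 1 := by simpa using hu
    have h2 := hc h1
    rw [Set.mem_iUnion₂] at h2
    obtain ⟨x, hx, hux⟩ := h2
    obtain ⟨i, hi, hix⟩ := List.getElem_of_mem ((hLt x).2 hx)
    refine ⟨i, hi.le, ?_⟩
    simp only [hi, dif_pos]
    rw [hix]
    rw [mem_ball, dist_eq_norm, norm_sub_rev] at hux
    exact hux.le

/-- the index of the direction -/
noncomputable def dirI (e : ℕ → E) (n : ℕ) (w : E) : ℕ := SimpleFunc.nearestPtInd e n ((‖w‖)⁻¹ • w)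

lemma dirI_meas (e : ℕ → E) (n : ℕ) : Measurable (dirI e n) := by
  unfold dirI
  apply (SimpleFunc.nearestPtInd e n).measurable.comp
  exact (measurable_norm.inv).smul measurable_id

lemma dirI_le (e : ℕ → E) (n : ℕ) (w : E) : dirI e n w ≤ n := SimpleFunc.nearestPtInd_le e n _

lemma dirI_spec {e : ℕ → E} {n : ℕ} {γ : ℝ}
    (h : ∀ u : E, ‖u‖ = 1 → ∃ i ≤ n, ‖e i - u‖ ≤ γ) (w : E) :
    ‖w - ‖w‖ • e (dirI e n w)‖ ≤ γ * ‖w‖ := by
  rcases eq_or_ne w 0 with rfl | hw
  · simp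
  · have hn : 0 < ‖w‖ := norm_pos_iff.2 hw
    set u : E := (‖w‖)⁻¹ • w with hu
    have hu1 : ‖u‖ = 1 := by
      rw [hu, norm_smul, norm_inv, norm_norm, inv_mul_cancel₀ hn.ne']
    obtain ⟨i, hi, hiu⟩ := h u hu1
    have h1 : edist (e (dirI e n w)) u ≤ edist (e i) u := SimpleFunc.edist_nearestPt_le e u hi
    have h2 : ‖e (dirI e n w) - u‖ ≤ ‖e i - u‖ := by
      rw [edist_dist, edist_dist, dist_eq_norm, dist_eq_norm] at h1
      exact (ENNReal.ofReal_le_ofReal_iff (norm_nonneg _)).1 h1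
    have h3 : w - ‖w‖ • e (dirI e n w) = ‖w‖ • (u - e (dirI e n w)) := by
      rw [smul_sub, hu, smul_smul, mul_inv_cancel₀ hn.ne', one_smul]
    rw [h3, norm_smul, norm_norm, norm_sub_rev, mul_comm γ]
    exact mul_le_mul_of_nonneg_left (h2.trans hiu) hn.le

lemma PsiA_fl {p lam : ℝ} {κ : E} (hκ : ‖κ‖ = 1) (c : ℂ) :
    PsiA p lam (fl κ c) = ENNReal.ofReal lam * ‖c.re‖ₑ ^ p + ‖c.im‖ₑ ^ p := by
  unfold PsiA fl
  rw [mk_fst, mk_snd, hκ, div_one]
  congr 2
  rw [← ofReal_norm, ← ofReal_norm, norm_smul, hκ, mul_one]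

lemma PsiA_mk0 {p lam : ℝ} (hp : 0 < p) (w : E) : PsiA p lam (mk 0 w) = ‖w‖ₑ ^ p := by
  unfold PsiA
  rw [mk_fst, mk_snd, enorm_zero, ENNReal.zero_rpow_of_pos hp, mul_zero, zero_add]

lemma field_lint_lt {h : E → ℂ} (H : Adm h) {p : ℝ} (hp : 0 < p) :
    ∫⁻ x, ‖field h x‖ₑ ^ p < ⊤ := by
  obtain ⟨M, hM⟩ := exists_M hp
  obtain ⟨C0, hC0, h0⟩ := H.sc.U_dec M
  obtain ⟨C1, hC1, h1⟩ := (H.m_mul 0).sc.U_dec M
  obtain ⟨C2, hC2, h2⟩ := (H.m_mul 1).sc.U_dec M
  refine lt_of_le_of_lt (lintegral_mono fun x => ?_)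
    (lt_top_iff_ne_top.2 (lint_dec hp hM (C0 + (C1 + C2))))
  apply ENNReal.rpow_le_rpow _ hp.le
  rw [← ofReal_norm]
  apply ENNReal.ofReal_le_ofReal
  have hx : 0 < (1 + ‖x‖) ^ M := by positivity
  rw [mul_one_div, le_div_iff₀ hx]
  have h3 : ‖field h x‖ ≤ ‖U h x‖ + (‖U (fun ξ => m 0 ξ * h ξ) x‖
      + ‖U (fun ξ => m 1 ξ * h ξ) x‖) := by
    have e1 : field h x = mk (U h x).re 0
        + mk 0 (WithLp.toLp 2 fun j => (U (fun ξ => m j ξ * h ξ) x).re) := by
      rw [mk_add, add_zero, zero_add]; rfl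
    rw [e1]
    refine (norm_add_le _ _).trans (add_le_add ?_ ((norm_mk_zero_le _).trans
      (add_le_add (Complex.abs_re_le_norm _) (Complex.abs_re_le_norm _))))
    rw [norm_mk, norm_zero]
    simp only [ne_eq, OfNat.ofNat_ne_zero, not_false_eq_true, zero_pow, add_zero]
    rw [Real.sqrt_sq_eq_abs]
    exact Complex.abs_re_le_norm _
  have := h0 x
  have := h1 x
  have := h2 x
  nlinarith

/-- membership in `L^p` from a bound by the field -/
lemma memLp_of_field {h : E → ℂ} (H : Adm h) {p : ℝ} (hp : 0 < p) {α : E → ℂ}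
    (hm : Measurable α) {K : ℝ} (hK : 0 ≤ K) (hb : ∀ x, ‖α x‖ ≤ K * ‖field h x‖) :
    MemLp α (ENNReal.ofReal p) volume := by
  refine ⟨hm.aestronglyMeasurable, ?_⟩
  have hp0 : ENNReal.ofReal p ≠ 0 := by simpa using hp
  rw [eLpNorm_eq_lintegral_rpow_enorm_toReal hp0 ENNReal.ofReal_ne_top,
    ENNReal.toReal_ofReal hp.le]
  apply ENNReal.rpow_lt_top_of_nonneg (by positivity)
  apply ne_of_lt
  have h2 : ∀ x, ‖α x‖ₑ ^ p ≤ ENNReal.ofReal K ^ p * ‖field h x‖ₑ ^ p := by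
    intro x
    rw [← ENNReal.mul_rpow_of_nonneg _ _ hp.le]
    apply ENNReal.rpow_le_rpow _ hp.le
    rw [← ofReal_norm, ← ofReal_norm, ← ENNReal.ofReal_mul hK]
    exact ENNReal.ofReal_le_ofReal (hb x)
  refine (lintegral_mono h2).trans_lt ?_
  rw [lintegral_const_mul' _ _ (ENNReal.rpow_ne_top_of_nonneg hp.le ENNReal.ofReal_ne_top)]
  exact ENNReal.mul_lt_top (ENNReal.rpow_lt_top_of_nonneg hp.le ENNReal.ofReal_ne_top)
    (field_lint_lt H hp)

theorem stepA {p lam : ℝ} (hp : 0 < p) (hp1 : p < 1 / 2) (hl : 0 ≤ lam) {δ : ℝ} (hδ : 0 < δ)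
    {h0 : E → ℂ} (H0 : Adm h0) (B : ℝ) {η : ℝ≥0∞} (hη : η ≠ 0) :
    ∃ h1, Adm h1 ∧ (∀ ξ, ‖ξ‖ ≤ B → h1 ξ = h0 ξ) ∧ ∫⁻ x, PsiA p lam (field h1 x)
      ≤ ENNReal.ofReal (lam / Real.cos (p * π / 2) + δ) * (∫⁻ x, ‖field h0 x‖ₑ ^ p) + η := by
  have hp1' : p ≤ 1 := by linarith
  have hcos : 0 < Real.cos (p * π / 2) := by
    apply Real.cos_pos_of_mem_Ioo
    constructor <;> nlinarith [Real.pi_pos]
  obtain ⟨r, hr, hr1, M, hA⟩ := A_mean hp hp1 hl (half_pos hδ)
  set γ : ℝ := (δ / 2) ^ (1 / p) with hγ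
  have hγ0 : 0 < γ := by positivity
  have hγp : γ ^ p = δ / 2 := by
    rw [hγ, ← Real.rpow_mul (by positivity), one_div, inv_mul_cancel₀ hp.ne', Real.rpow_one]
  obtain ⟨n, e, he, hne⟩ := exists_net hγ0
  have hfm : Measurable (field h0) := (field_continuous H0).measurable
  have hsm : Measurable fun x => (field h0 x).snd := V_snd_cont.measurable.comp hfm
  set J : E → ℕ := fun x => dirI e n (field h0 x).snd with hJ
  have hJm : Measurable J := (dirI_meas e n).comp hsm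
  set α : Fin (n + 1) × Fin M → E → ℂ := fun i x =>
    if J x = i.1 then 2 * I * (r : ℂ) ^ ((i.2 : ℕ) + 1) * ((‖(field h0 x).snd‖ : ℝ) : ℂ) else 0
    with hα
  have hαm : ∀ i, Measurable (α i) := by
    intro i
    simp only [hα]
    apply Measurable.ite
    · exact hJm (measurableSet_singleton _)
    · exact (Complex.measurable_ofReal.comp hsm.norm).const_mul _
    · exact measurable_const
  have hαb : ∀ i x, ‖α i x‖ ≤ 2 * ‖field h0 x‖ := by
    intro i x
    simp only [hα]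
    split_ifs with h
    · rw [norm_mul, norm_mul, norm_mul, Complex.norm_two, Complex.norm_I, norm_pow,
        Complex.norm_real, Complex.norm_real, norm_norm, Real.norm_eq_abs, abs_of_pos hr, mul_one]
      have h1 : r ^ ((i.2 : ℕ) + 1) ≤ 1 := pow_le_one₀ hr.le hr1.le
      have h2 := norm_snd_le (field h0 x)
      have h3 : 0 ≤ ‖(field h0 x).snd‖ := norm_nonneg _
      nlinarith
    · rw [norm_zero]; positivity
  refine step hp hp1' (funA (lam := lam) hp hp1') (volume : Measure UnitAddCircle) α hαm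
    (fun i => memLp_of_field H0 hp (hαm i) zero_le_two (hαb i))
    (fun i => (((i.2 : ℕ) + 1 : ℕ) : ℝ) • e i.1) ?_ (fun i φ => cc φ ^ ((i.2 : ℕ) + 1))
    (fun i => (cc_continuous.pow _).measurable) ?_ H0 ?_ B hη
  · intro i
    rw [smul_ne_zero_iff]
    refine ⟨by positivity, ?_⟩
    intro h
    have := he i.1
    rw [h, norm_zero] at this
    exact zero_ne_one this
  · intro i φ
    rw [norm_pow, norm_cc, one_pow]
  · intro N
    have hGm : Measurable (Function.uncurry fun (φ : UnitAddCircle) (x : E) =>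
        PsiA p lam (field h0 x + ∑ i, fl ((((i.2 : ℕ) + 1 : ℕ) : ℝ) • e i.1)
        (α i x * cc φ ^ ((i.2 : ℕ) + 1) *
          ex (N * inner ℝ ((((i.2 : ℕ) + 1 : ℕ) : ℝ) • e i.1) x)))) := by
      apply (funA (lam := lam) hp hp1').meas.comp
      apply Measurable.add
      · exact hfm.comp measurable_snd
      · refine Finset.measurable_sum _ fun i _ => ?_
        apply (fl_continuous _).measurable.comp
        apply Measurable.mul
        · exact ((hαm i).comp measurable_snd).mul ((cc_continuous.pow _).measurable.comp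
            measurable_fst)
        · exact (continuous_ex.comp (by fun_prop : Continuous fun x : E =>
            (N : ℝ) * inner ℝ ((((i.2 : ℕ) + 1 : ℕ) : ℝ) • e i.1) x)).measurable.comp measurable_snd
    rw [lintegral_lintegral_swap hGm.aemeasurable, ← lintegral_const_mul' _ _ ENNReal.ofReal_ne_top]
    apply lintegral_mono
    intro x
    simp only
    set w := field h0 x with hw
    set a := w.fst with ha
    set b := ‖w.snd‖ with hb
    set κ := e (J x) with hκ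
    have hκ1 : ‖κ‖ = 1 := he _
    set c : ℂ := ex (N * inner ℝ κ x) with hc
    have hc1 : ‖c‖ = 1 := norm_ex _
    have key : ∀ φ : UnitAddCircle, PsiA p lam (w + ∑ i, fl ((((i.2 : ℕ) + 1 : ℕ) : ℝ) • e i.1)
        (α i x * cc φ ^ ((i.2 : ℕ) + 1) *
          ex (N * inner ℝ ((((i.2 : ℕ) + 1 : ℕ) : ℝ) • e i.1) x)))
        ≤ (ENNReal.ofReal lam * ‖(PP r a b M (cc φ * c)).re‖ₑ ^ p
          + ‖(PP r a b M (cc φ * c)).im‖ₑ ^ p) + ENNReal.ofReal (δ / 2 * b ^ p) := by
      intro φ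
      have hJn : J x < n + 1 := Nat.lt_succ_of_le (dirI_le _ _ _)
      have e1 : ∑ i, fl ((((i.2 : ℕ) + 1 : ℕ) : ℝ) • e i.1)
          (α i x * cc φ ^ ((i.2 : ℕ) + 1) *
            ex (N * inner ℝ ((((i.2 : ℕ) + 1 : ℕ) : ℝ) • e i.1) x))
          = fl κ (∑ m ∈ Finset.range M, 2 * I * b * (r * (cc φ * c)) ^ (m + 1)) := by
        rw [Fintype.sum_prod_type, Finset.sum_eq_single (⟨J x, hJn⟩ : Fin (n + 1))]
        · rw [Finset.sum_range (fun m => 2 * I * b * ((r : ℂ) * (cc φ * c)) ^ (m + 1)), ← fl_sum]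
          refine Finset.sum_congr rfl fun m _ => ?_
          simp only [hα, if_true]
          rw [fl_smul (by positivity)]
          congr 1
          have e2 : (N : ℝ) * inner ℝ ((((m : ℕ) + 1 : ℕ) : ℝ) • e (J x)) x
              = (((m : ℕ) + 1 : ℕ) : ℝ) * (N * inner ℝ κ x) := by
            rw [inner_smul_left, conj_trivial]
            ring
          rw [e2, ex_nat_mul, mul_pow, mul_pow]
          ring
        · intro j _ hj
          refine Finset.sum_eq_zero fun m _ => ?_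
          have h1 : ¬ (J x = (j : ℕ)) := by
            intro h
            apply hj
            ext
            exact h.symm
          simp only [hα, if_neg h1, zero_mul]
          exact fl_zero _
        · intro h
          exact absurd (Finset.mem_univ _) h
      rw [e1]
      have e3 : w + fl κ (∑ m ∈ Finset.range M, 2 * I * b * ((r : ℂ) * (cc φ * c)) ^ (m + 1))
          = fl κ (PP r a b M (cc φ * c)) + mk 0 (w.snd - b • κ) := by
        have e4 : PP r a b M (cc φ * c) = (a + I * b)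
            + ∑ m ∈ Finset.range M, 2 * I * b * ((r : ℂ) * (cc φ * c)) ^ (m + 1) := by
          unfold PP
          rw [← Finset.mul_sum]
          ring
        rw [e4, fl_add, add_right_comm]
        congr 1
        have e5 : fl κ (a + I * b) = mk a (b • κ) := by
          unfold fl
          simp [hκ1]
        rw [e5, mk_add, add_zero, add_sub_cancel]
        rfl
      rw [e3]
      refine ((funA (lam := lam) hp hp1').sub _ _).trans ?_
      rw [PsiA_fl hκ1, PsiA_mk0 hp]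
      refine add_le_add le_rfl ?_
      have h5 : ‖w.snd - b • κ‖ ≤ γ * b := dirI_spec hne w.snd
      have h6 : ‖w.snd - b • κ‖ₑ ^ p ≤ ENNReal.ofReal (γ * b) ^ p := by
        apply ENNReal.rpow_le_rpow _ hp.le
        rw [← ofReal_norm]
        exact ENNReal.ofReal_le_ofReal h5
      refine h6.trans (le_of_eq ?_)
      rw [ENNReal.ofReal_rpow_of_nonneg (by positivity) hp.le,
        Real.mul_rpow hγ0.le (norm_nonneg _), hγp]
    refine (lintegral_mono key).trans ?_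
    rw [lintegral_add_right _ measurable_const, lintegral_const, measure_univ, mul_one]
    refine (add_le_add (hA a b (norm_nonneg _) c hc1) le_rfl).trans ?_
    have hv : √(a ^ 2 + b ^ 2) = ‖w‖ := (V_norm w).symm
    have hbw : b ^ p ≤ ‖w‖ ^ p := Real.rpow_le_rpow (norm_nonneg _) (norm_snd_le w) hp.le
    rw [hv, ← ofReal_norm w, ENNReal.ofReal_rpow_of_nonneg (norm_nonneg _) hp.le,
      ← ENNReal.ofReal_add (by positivity) (by positivity), ← ENNReal.ofReal_mul (by positivity)]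
    apply ENNReal.ofReal_le_ofReal
    nlinarith

end Pool.Agent.K7.H79.RZ
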