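import Pool.Agent.K7.H79.RZ.AStep

/-!
# Three resonant waves decrease small moments
-/

set_option autoImplicit false

open MeasureTheory Complex Real Filter Topology Metric
open scoped ENNReal NNReal

namespace Pool.Agent.K7.H79.RZ

/-- sum of the real parts -/
def g0 (w1 w2 w3 : ℂ) : ℝ := w1.re + w2.re + w3.re

/-- squared norm of the wave -/
noncomputable def QQ (w1 w2 w3 : ℂ) : ℝ :=
  g0 w1 w2 w3 ^ 2 + ((w1.im - w2.im / 2 - w3.im / 2) ^ 2 + 3 / 4 * (w2.im - w3.im) ^ 2)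

lemma re_sq_im_sq {w : ℂ} (h : ‖w‖ = 1) : w.re ^ 2 + w.im ^ 2 = 1 := by
  have h1 := Complex.normSq_eq_norm_sq w
  rw [h, Complex.normSq_apply] at h1
  linarith

lemma abs_re_le_one {w : ℂ} (h : ‖w‖ = 1) : |w.re| ≤ 1 := h ▸ Complex.abs_re_le_norm w

lemma g0_abs {w1 w2 w3 : ℂ} (h1 : ‖w1‖ = 1) (h2 : ‖w2‖ = 1) (h3 : ‖w3‖ = 1) :
    |g0 w1 w2 w3| ≤ 3 := by
  have a1 := abs_le.1 (abs_re_le_one h1)
  have a2 := abs_le.1 (abs_re_le_one h2)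
  have a3 := abs_le.1 (abs_re_le_one h3)
  unfold g0
  rw [abs_le]
  constructor <;> linarith [a1.1, a1.2, a2.1, a2.2, a3.1, a3.2]

lemma QQ_le {w1 w2 w3 : ℂ} (h1 : ‖w1‖ = 1) (h2 : ‖w2‖ = 1) (h3 : ‖w3‖ = 1) :
    QQ w1 w2 w3 ≤ 9 := by
  have a1 := re_sq_im_sq h1
  have a2 := re_sq_im_sq h2
  have a3 := re_sq_im_sq h3
  unfold QQ g0
  nlinarith [sq_nonneg (w1.re - w2.re), sq_nonneg (w1.re - w3.re), sq_nonneg (w2.re - w3.re),
    sq_nonneg (w1.im + w2.im + w3.im), sq_nonneg w1.im, sq_nonneg w2.im, sq_nonneg w3.im]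

lemma g0_sq_le_QQ (w1 w2 w3 : ℂ) : g0 w1 w2 w3 ^ 2 ≤ QQ w1 w2 w3 := by
  unfold QQ
  nlinarith [sq_nonneg (w1.im - w2.im / 2 - w3.im / 2), sq_nonneg (w2.im - w3.im)]

/-- the parameter -/
noncomputable def e0 : ℝ := 1 / 50000

/-- half of the exponent -/
noncomputable def q0 : ℝ := e0 ^ 3 / 40

/-- the polynomial majorant -/
noncomputable def PL (g Q : ℝ) : ℝ := 2 * e0 * g + e0 ^ 2 * Q - 2 * e0 ^ 2 * g ^ 2
  - 2 * e0 ^ 3 * (g * Q) + 8 / 3 * e0 ^ 3 * g ^ 3 + 5855 * e0 ^ 4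

lemma log_le_PL {g Q : ℝ} (hg : |g| ≤ 3) (hQ : Q ≤ 9) (hgQ : g ^ 2 ≤ Q) :
    0 < 1 + 2 * e0 * g + e0 ^ 2 * Q ∧ Real.log (1 + 2 * e0 * g + e0 ^ 2 * Q) ≤ PL g Q ∧
      |Real.log (1 + 2 * e0 * g + e0 ^ 2 * Q)| ≤ 14 * e0 := by
  have he : 0 < e0 := by unfold e0; norm_num
  have he1 : e0 ≤ 1 / 50000 := by unfold e0; norm_num
  have hg1 := abs_le.1 hg
  have hQ0 : 0 ≤ Q := le_trans (sq_nonneg g) hgQ
  set X : ℝ := 2 * e0 * g + e0 ^ 2 * Q with hX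
  have hXu : X ≤ 7 * e0 := by
    have h1 : e0 * g ≤ e0 * 3 := mul_le_mul_of_nonneg_left hg1.2 he.le
    have h2 : e0 ^ 2 * Q ≤ e0 ^ 2 * 9 := mul_le_mul_of_nonneg_left hQ (by positivity)
    have h3 : e0 ^ 2 * 9 ≤ e0 := by nlinarith
    rw [hX]; nlinarith
  have hXl : -(7 * e0) ≤ X := by
    have h1 : e0 * (-3) ≤ e0 * g := mul_le_mul_of_nonneg_left (by linarith [hg1.1]) he.le
    have h2 : 0 ≤ e0 ^ 2 * Q := by positivity
    rw [hX]; nlinarith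
  have hXa : |X| ≤ 7 * e0 := abs_le.2 ⟨hXl, hXu⟩
  have hX1 : |X| < 1 := by linarith
  have hX2 : |X| ≤ 1 / 2 := by linarith
  have hpos : 0 < 1 + X := by linarith [(abs_lt.1 hX1).1]
  have e1 : 1 + 2 * e0 * g + e0 ^ 2 * Q = 1 + X := by rw [hX]; ring
  rw [e1]
  refine ⟨hpos, ?_, ?_⟩
  · have h1 := Real.abs_log_sub_add_sum_range_le (x := -X) (by rwa [abs_neg]) 3
    rw [sub_neg_eq_add, abs_neg] at h1
    have h2 := (abs_le.1 h1).2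
    simp only [Finset.sum_range_succ, Finset.sum_range_zero] at h2
    norm_num at h2
    have h3 : |X| ^ 4 / (1 - |X|) ≤ 4802 * e0 ^ 4 := by
      rw [div_le_iff₀ (by linarith)]
      have h4 : |X| ^ 4 ≤ (7 * e0) ^ 4 := pow_le_pow_left₀ (abs_nonneg _) hXa 4
      have h5 : 4802 * e0 ^ 4 * (1 / 2) ≤ 4802 * e0 ^ 4 * (1 - |X|) :=
        mul_le_mul_of_nonneg_left (by linarith) (by positivity)
      nlinarith
    have h6 : X - X ^ 2 / 2 + X ^ 3 / 3 ≤ PL g Q - 4802 * e0 ^ 4 := by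
      have h7 : PL g Q - 4802 * e0 ^ 4 - (X - X ^ 2 / 2 + X ^ 3 / 3)
          = e0 ^ 4 * (1053 + Q ^ 2 / 2 - 4 * (g ^ 2 * Q) - 2 * e0 * (g * Q ^ 2)
            - e0 ^ 2 * Q ^ 3 / 3) := by
        unfold PL
        rw [hX]; ring
      have h8 : g ^ 2 * Q ≤ 81 := by
        have : g ^ 2 ≤ 9 := by nlinarith
        nlinarith
      have h9 : Q ^ 2 ≤ 81 := by nlinarith
      have h10 : g * Q ^ 2 ≤ 243 := by nlinarith [sq_nonneg Q]
      have h11 : Q ^ 3 ≤ 729 := by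
        have : Q ^ 3 ≤ 9 ^ 3 := pow_le_pow_left₀ hQ0 hQ 3
        linarith
      have h12 : 0 ≤ 1053 + Q ^ 2 / 2 - 4 * (g ^ 2 * Q) - 2 * e0 * (g * Q ^ 2)
            - e0 ^ 2 * Q ^ 3 / 3 := by
        have h13 : e0 * (g * Q ^ 2) ≤ e0 * 243 := mul_le_mul_of_nonneg_left h10 he.le
        have h14 : e0 ^ 2 * Q ^ 3 ≤ e0 ^ 2 * 729 := mul_le_mul_of_nonneg_left h11 (by positivity)
        have h15 : e0 ^ 2 ≤ 1 := by nlinarith
        nlinarith [sq_nonneg Q]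
      have h16 : 0 ≤ e0 ^ 4 * (1053 + Q ^ 2 / 2 - 4 * (g ^ 2 * Q) - 2 * e0 * (g * Q ^ 2)
            - e0 ^ 2 * Q ^ 3 / 3) := by positivity
      linarith
    have h17 : Real.log (1 + X) ≤ X - X ^ 2 / 2 + X ^ 3 / 3 + |X| ^ 4 / (1 - |X|) := by
      have e2 : (-X) ^ 3 = -X ^ 3 := by ring
      rw [e2] at h2
      linarith
    linarith
  · rw [abs_le]
    constructor
    · have h1 := Real.one_sub_inv_le_log_of_pos hpos
      have h2 : -(14 * e0) ≤ 1 - (1 + X)⁻¹ := by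
        have h3 : (1 + X)⁻¹ ≤ 1 + 14 * e0 := by
          rw [inv_le_comm₀ hpos (by positivity)]
          rw [inv_le_iff_one_le_mul₀ (by positivity)]
          nlinarith
        linarith
      linarith
    · have := Real.log_le_sub_one_of_pos hpos
      linarith

lemma rpow_le_PL {g Q : ℝ} (hg : |g| ≤ 3) (hQ : Q ≤ 9) (hgQ : g ^ 2 ≤ Q) :
    (1 + 2 * e0 * g + e0 ^ 2 * Q) ^ q0 ≤ 1 + q0 * PL g Q + q0 ^ 2 * (196 * e0 ^ 2) := by
  obtain ⟨h1, h2, h3⟩ := log_le_PL hg hQ hgQ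
  have hq : 0 < q0 := by unfold q0 e0; norm_num
  have he : 0 < e0 := by unfold e0; norm_num
  set L := Real.log (1 + 2 * e0 * g + e0 ^ 2 * Q) with hL
  have hy : |q0 * L| ≤ 1 := by
    rw [abs_mul, abs_of_pos hq]
    have : q0 * |L| ≤ q0 * (14 * e0) := mul_le_mul_of_nonneg_left h3 hq.le
    have h4 : q0 * (14 * e0) ≤ 1 := by unfold q0 e0; norm_num
    linarith
  have h5 := (abs_le.1 (Real.abs_exp_sub_one_sub_id_le hy)).2
  rw [Real.rpow_def_of_pos h1, ← hL, mul_comm L]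
  have h6 : (q0 * L) ^ 2 ≤ q0 ^ 2 * (196 * e0 ^ 2) := by
    rw [mul_pow]
    apply mul_le_mul_of_nonneg_left _ (by positivity)
    have := pow_le_pow_left₀ (abs_nonneg L) h3 2
    rw [sq_abs] at this
    nlinarith
  have h7 : q0 * L ≤ q0 * PL g Q := mul_le_mul_of_nonneg_left h2 hq.le
  linarith

/-- the sixteen phases -/
def chi1 (φ : Fin 4 × Fin 4) : ℂ := I ^ (φ.1 : ℕ)
/-- the sixteen phases -/
def chi2 (φ : Fin 4 × Fin 4) : ℂ := I ^ (φ.2 : ℕ)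
/-- the sixteen phases -/
def chi3 (φ : Fin 4 × Fin 4) : ℂ := (-I) ^ ((φ.1 : ℕ) + (φ.2 : ℕ))

lemma norm_chi1 (φ) : ‖chi1 φ‖ = 1 := by unfold chi1; rw [norm_pow, Complex.norm_I, one_pow]
lemma norm_chi2 (φ) : ‖chi2 φ‖ = 1 := by unfold chi2; rw [norm_pow, Complex.norm_I, one_pow]
lemma norm_chi3 (φ) : ‖chi3 φ‖ = 1 := by
  unfold chi3; rw [norm_pow, norm_neg, Complex.norm_I, one_pow]

lemma sum_PL {w1 w2 w3 : ℂ} (h1 : ‖w1‖ = 1) (h2 : ‖w2‖ = 1) (h3 : ‖w3‖ = 1)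
    (h : w1 * w2 * w3 = 1) :
    ∑ φ, PL (g0 (chi1 φ * w1) (chi2 φ * w2) (chi3 φ * w3))
      (QQ (chi1 φ * w1) (chi2 φ * w2) (chi3 φ * w3)) = 16 * (-(1 / 2) * e0 ^ 3 + 5855 * e0 ^ 4) := by
  have a1 := re_sq_im_sq h1
  have a2 := re_sq_im_sq h2
  have a3 := re_sq_im_sq h3
  have hre := congrArg Complex.re h
  simp only [Complex.mul_re, Complex.mul_im, Complex.one_re] at hre
  obtain ⟨c1, s1⟩ := w1
  obtain ⟨c2, s2⟩ := w2
  obtain ⟨c3, s3⟩ := w3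
  simp only at a1 a2 a3 hre
  simp only [Fintype.sum_prod_type, Fin.sum_univ_four, chi1, chi2, chi3]
  have i3 : ((3 : Fin 4) : ℕ) = 3 := rfl
  have i2 : ((2 : Fin 4) : ℕ) = 2 := rfl
  have i1 : ((1 : Fin 4) : ℕ) = 1 := rfl
  have i0 : ((0 : Fin 4) : ℕ) = 0 := rfl
  simp only [i0, i1, i2, i3, pow_zero, pow_one, Nat.reduceAdd, pow_succ]
  simp only [g0, QQ, PL, Complex.mul_re, Complex.mul_im, Complex.I_re, Complex.I_im,
    Complex.neg_re, Complex.neg_im, Complex.one_re, Complex.one_im]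
  linear_combination (16 * e0 ^ 2 - 16 * e0 ^ 2) * (a1 + a2 + a3)
    + (-72 * e0 ^ 3 + 64 * e0 ^ 3) * hre

end Pool.Agent.K7.H79.RZ
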