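import Pool.Agent.K7.H79.RZ.BLem

/-!
# The second kind of step
-/

set_option autoImplicit false

open MeasureTheory Complex Real Filter Topology Metric
open scoped ENNReal NNReal

namespace Pool.Agent.K7.H79.RZ

/-- the exponent -/
noncomputable def p0 : ℝ := 2 * q0

/-- the gain of the second step -/
noncomputable def lam0 : ℝ := 1 + q0 * (-(1 / 2) * e0 ^ 3 + 5855 * e0 ^ 4) + q0 ^ 2 * (196 * e0 ^ 2)

lemma q0_pos : 0 < q0 := by unfold q0 e0; norm_num
lemma e0_pos : 0 < e0 := by unfold e0; norm_num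
lemma p0_pos : 0 < p0 := by unfold p0; linarith [q0_pos]
lemma q0_lt : q0 < 1 / 1000 := by unfold q0 e0; norm_num
lemma p0_lt : p0 < 1 / 2 := by unfold p0; linarith [q0_lt]
lemma p0_le_one : p0 ≤ 1 := by linarith [p0_lt]
lemma lam0_pos : 0 < lam0 := by unfold lam0 q0 e0; norm_num

lemma lam0_lt : lam0 < Real.cos (p0 * π / 2) := by
  have h1 : p0 * π / 2 = q0 * π := by unfold p0; ring
  rw [h1]
  have h2 := Real.one_sub_sq_div_two_le_cos (x := q0 * π)
  refine lt_of_lt_of_le ?_ h2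
  have h3 : π ^ 2 ≤ 10 := by
    have := Real.pi_lt_d2
    nlinarith [Real.pi_pos]
  have h4 : (q0 * π) ^ 2 / 2 ≤ q0 ^ 2 * 5 := by
    rw [mul_pow]
    nlinarith [sq_nonneg q0]
  have h5 : lam0 < 1 - q0 ^ 2 * 5 := by
    unfold lam0 q0 e0; norm_num
  linarith

lemma sum_B {w1 w2 w3 : ℂ} (h1 : ‖w1‖ = 1) (h2 : ‖w2‖ = 1) (h3 : ‖w3‖ = 1)
    (h : w1 * w2 * w3 = 1) :
    ∑ φ, (1 + 2 * e0 * g0 (chi1 φ * w1) (chi2 φ * w2) (chi3 φ * w3)
      + e0 ^ 2 * QQ (chi1 φ * w1) (chi2 φ * w2) (chi3 φ * w3)) ^ q0 ≤ 16 * lam0 := by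
  have hn1 : ∀ φ, ‖chi1 φ * w1‖ = 1 := fun φ => by rw [norm_mul, norm_chi1, h1, one_mul]
  have hn2 : ∀ φ, ‖chi2 φ * w2‖ = 1 := fun φ => by rw [norm_mul, norm_chi2, h2, one_mul]
  have hn3 : ∀ φ, ‖chi3 φ * w3‖ = 1 := fun φ => by rw [norm_mul, norm_chi3, h3, one_mul]
  calc _ ≤ ∑ φ : Fin 4 × Fin 4, (1 + q0 * PL (g0 (chi1 φ * w1) (chi2 φ * w2) (chi3 φ * w3))
      (QQ (chi1 φ * w1) (chi2 φ * w2) (chi3 φ * w3)) + q0 ^ 2 * (196 * e0 ^ 2)) :=
        Finset.sum_le_sum fun φ _ => rpow_le_PL (g0_abs (hn1 φ) (hn2 φ) (hn3 φ))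
          (QQ_le (hn1 φ) (hn2 φ) (hn3 φ)) (g0_sq_le_QQ _ _ _)
    _ = 16 * lam0 := by
        rw [Finset.sum_add_distrib, Finset.sum_add_distrib, ← Finset.mul_sum, sum_PL h1 h2 h3 h]
        simp only [Finset.sum_const, Finset.card_univ, Fintype.card_prod, Fintype.card_fin,
          nsmul_eq_mul]
        unfold lam0
        push_cast
        ring

/-- the three wave vectors -/
noncomputable def kk : Fin 3 → E :=
  ![!₂[1, 0], !₂[-(1 / 2), √3 / 2], !₂[-(1 / 2), -(√3 / 2)]]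

/-- the phases -/
def chi : Fin 3 → (Fin 4 × Fin 4) → ℂ := ![chi1, chi2, chi3]

lemma norm_chi (i φ) : ‖chi i φ‖ = 1 := by
  fin_cases i
  · exact norm_chi1 φ
  · exact norm_chi2 φ
  · exact norm_chi3 φ

lemma norm_kk (i) : ‖kk i‖ = 1 := by
  have h3 : (√3 : ℝ) ^ 2 = 3 := Real.sq_sqrt (by norm_num)
  fin_cases i
  · simp [kk, EuclideanSpace.norm_eq]
  · simp only [kk, EuclideanSpace.norm_eq]
    simp [Fin.sum_univ_two, div_pow, h3]
    norm_num
  · simp only [kk, EuclideanSpace.norm_eq]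
    simp [Fin.sum_univ_two, div_pow, h3]
    norm_num

lemma kk_sum : kk 0 + kk 1 + kk 2 = 0 := by
  ext j
  fin_cases j
  · simp [kk]
    ring
  · simp [kk]

lemma norm_wave (b1 b2 b3 : ℝ) : ‖b1 • kk 0 + b2 • kk 1 + b3 • kk 2‖ ^ 2
    = (b1 - b2 / 2 - b3 / 2) ^ 2 + 3 / 4 * (b2 - b3) ^ 2 := by
  have h3 : (√3 : ℝ) ^ 2 = 3 := Real.sq_sqrt (by norm_num)
  rw [EuclideanSpace.norm_sq_eq]
  simp only [Fin.sum_univ_two, Real.norm_eq_abs, sq_abs, kk]
  simp
  ring_nf
  rw [h3]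
  ring

/-- the measure on the phases -/
noncomputable def mu16 : Measure (Fin 4 × Fin 4) := (16 : ℝ≥0∞)⁻¹ • Measure.count

lemma lint16 (f : Fin 4 × Fin 4 → ℝ≥0∞) : ∫⁻ φ, f φ ∂mu16 = (16 : ℝ≥0∞)⁻¹ * ∑ φ, f φ := by
  unfold mu16
  rw [lintegral_smul_measure, lintegral_count, tsum_fintype, smul_eq_mul]

instance : IsProbabilityMeasure mu16 := by
  refine ⟨?_⟩
  have h := lint16 fun _ => 1
  rw [lintegral_one] at h
  rw [h]
  simp only [Finset.sum_const, Finset.card_univ, Fintype.card_prod, Fintype.card_fin,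
    nsmul_eq_mul, mul_one]
  norm_num
  exact ENNReal.inv_mul_cancel (by norm_num) (by norm_num)

lemma norm_total (a : ℝ) {W1 W2 W3 : ℂ} :
    ‖mk a 0 + (fl (kk 0) (a * e0 * W1) + fl (kk 1) (a * e0 * W2) + fl (kk 2) (a * e0 * W3))‖
      = |a| * √(1 + 2 * e0 * g0 W1 W2 W3 + e0 ^ 2 * QQ W1 W2 W3) := by
  have e1 : ∀ W : ℂ, (a * e0 * W : ℂ).re = a * e0 * W.re := by
    intro W
    have : (a * e0 * W : ℂ) = ((a * e0 : ℝ) : ℂ) * W := by push_cast; ring
    rw [this, Complex.re_ofReal_mul]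
  have e2 : ∀ W : ℂ, (a * e0 * W : ℂ).im = a * e0 * W.im := by
    intro W
    have : (a * e0 * W : ℂ) = ((a * e0 : ℝ) : ℂ) * W := by push_cast; ring
    rw [this, Complex.im_ofReal_mul]
  unfold fl
  rw [mk_add, mk_add, mk_add, norm_kk, norm_kk, norm_kk, norm_mk, e1, e1, e1, e2, e2, e2]
  have e3 : (0 : E) + ((a * e0 * W1.im / 1) • kk 0 + (a * e0 * W2.im / 1) • kk 1
      + (a * e0 * W3.im / 1) • kk 2)
      = (a * e0 * W1.im) • kk 0 + (a * e0 * W2.im) • kk 1 + (a * e0 * W3.im) • kk 2 := by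
    simp
  rw [e3, norm_wave, ← Real.sqrt_sq_eq_abs, ← Real.sqrt_mul (sq_nonneg a)]
  congr 1
  unfold QQ g0
  ring

theorem stepB {h0 : E → ℂ} (H0 : Adm h0) (B : ℝ) {η : ℝ≥0∞} (hη : η ≠ 0) :
    ∃ h1, Adm h1 ∧ (∀ ξ, ‖ξ‖ ≤ B → h1 ξ = h0 ξ) ∧
      ∫⁻ x, ‖field h1 x‖ₑ ^ p0 ≤ (∫⁻ x, PsiA p0 lam0 (field h0 x)) + η := by
  have hp := p0_pos
  have hp1 := p0_le_one
  have hfm : Measurable (field h0) := (field_continuous H0).measurable
  set α : Fin 3 → E → ℂ := fun _ x => (((field h0 x).fst : ℝ) : ℂ) * e0 with hα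
  have hαm : ∀ i, Measurable (α i) := fun i =>
    (Complex.measurable_ofReal.comp (V_fst_cont.measurable.comp hfm)).mul_const _
  have hαb : ∀ i x, ‖α i x‖ ≤ e0 * ‖field h0 x‖ := by
    intro i x
    simp only [hα]
    rw [norm_mul, Complex.norm_real, Complex.norm_real, Real.norm_eq_abs e0, abs_of_pos e0_pos,
      mul_comm]
    exact mul_le_mul_of_nonneg_left (norm_fst_le _) e0_pos.le
  refine step hp hp1 (funB hp hp1) mu16 α hαm
    (fun i => memLp_of_field H0 hp (hαm i) e0_pos.le (hαb i)) kk ?_ chi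
    (fun i => measurable_of_countable _) norm_chi H0 ?_ B hη
  · intro i h
    have := norm_kk i
    rw [h, norm_zero] at this
    exact zero_ne_one this
  · intro N
    have hGm : ∀ φ : Fin 4 × Fin 4, Measurable fun x : E => ‖field h0 x + ∑ i, fl (kk i)
        (α i x * chi i φ * ex (N * inner ℝ (kk i) x))‖ₑ ^ p0 := by
      intro φ
      apply Measurable.pow_const
      apply Measurable.enorm
      apply Measurable.add hfm
      refine Finset.measurable_sum _ fun i _ => ?_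
      apply (fl_continuous _).measurable.comp
      apply Measurable.mul
      · exact (hαm i).mul_const _
      · exact (continuous_ex.comp (by fun_prop : Continuous fun x : E =>
          (N : ℝ) * inner ℝ (kk i) x)).measurable
    rw [lint16, ← lintegral_finsetSum _ fun φ _ => hGm φ,
      ← lintegral_const_mul _ (Finset.measurable_sum _ fun φ _ => hGm φ)]
    apply lintegral_mono
    intro x
    simp only
    set w := field h0 x with hw
    set a := w.fst with ha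
    set W1 : ℂ := ex (N * inner ℝ (kk 0) x) with hW1
    set W2 : ℂ := ex (N * inner ℝ (kk 1) x) with hW2
    set W3 : ℂ := ex (N * inner ℝ (kk 2) x) with hW3
    have hprod : W1 * W2 * W3 = 1 := by
      rw [hW1, hW2, hW3, ← ex_add, ← ex_add, ← mul_add, ← mul_add, ← inner_add_left,
        ← inner_add_left, kk_sum, inner_zero_left, mul_zero, ex_zero]
    have hpt : ∀ φ : Fin 4 × Fin 4, ‖w + ∑ i, fl (kk i)
        (α i x * chi i φ * ex (N * inner ℝ (kk i) x))‖ₑ ^ p0
        ≤ ENNReal.ofReal (|a| ^ p0 * (1 + 2 * e0 * g0 (chi1 φ * W1) (chi2 φ * W2) (chi3 φ * W3)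
      + e0 ^ 2 * QQ (chi1 φ * W1) (chi2 φ * W2) (chi3 φ * W3)) ^ q0) + ‖w.snd‖ₑ ^ p0 := by
      intro φ
      have hn1 : ‖chi1 φ * W1‖ = 1 := by rw [norm_mul, norm_chi1, norm_ex, one_mul]
      have hn2 : ‖chi2 φ * W2‖ = 1 := by rw [norm_mul, norm_chi2, norm_ex, one_mul]
      have hn3 : ‖chi3 φ * W3‖ = 1 := by rw [norm_mul, norm_chi3, norm_ex, one_mul]
      have hpos := (log_le_PL (g0_abs hn1 hn2 hn3) (QQ_le hn1 hn2 hn3) (g0_sq_le_QQ _ _ _)).1
      set R : ℝ := 1 + 2 * e0 * g0 (chi1 φ * W1) (chi2 φ * W2) (chi3 φ * W3)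
        + e0 ^ 2 * QQ (chi1 φ * W1) (chi2 φ * W2) (chi3 φ * W3) with hR
      have e1 : w + ∑ i, fl (kk i) (α i x * chi i φ * ex (N * inner ℝ (kk i) x))
          = (mk a 0 + (fl (kk 0) (a * e0 * (chi1 φ * W1)) + fl (kk 1) (a * e0 * (chi2 φ * W2))
            + fl (kk 2) (a * e0 * (chi3 φ * W3)))) + mk 0 w.snd := by
        rw [Fin.sum_univ_three]
        have e2 : w = mk a 0 + mk 0 w.snd := by
          rw [mk_add, add_zero, zero_add]; rfl
        have e3 : α 0 x * chi 0 φ * ex (N * inner ℝ (kk 0) x) = a * e0 * (chi1 φ * W1) := by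
          simp only [hα]
          rw [mul_assoc]
          rfl
        have e4 : α 1 x * chi 1 φ * ex (N * inner ℝ (kk 1) x) = a * e0 * (chi2 φ * W2) := by
          simp only [hα]
          rw [mul_assoc]
          rfl
        have e5 : α 2 x * chi 2 φ * ex (N * inner ℝ (kk 2) x) = a * e0 * (chi3 φ * W3) := by
          simp only [hα]
          rw [mul_assoc]
          rfl
        rw [e3, e4, e5]
        nth_rw 1 [e2]
        abel
      rw [e1]
      refine (enorm_add_rpow_le' hp hp1 _ _).trans (add_le_add ?_ ?_)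
      · rw [← ofReal_norm, norm_total, ENNReal.ofReal_rpow_of_nonneg (by positivity) hp.le]
        apply ENNReal.ofReal_le_ofReal
        rw [Real.mul_rpow (abs_nonneg _) (Real.sqrt_nonneg _)]
        apply mul_le_mul_of_nonneg_left _ (by positivity)
        rw [Real.sqrt_eq_rpow, ← Real.rpow_mul hpos.le]
        apply le_of_eq
        congr 1
        unfold p0
        ring
      · apply ENNReal.rpow_le_rpow _ hp.le
        apply enorm_le_of_norm_le
        rw [norm_mk]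
        simp
    have h16 : (16 : ℝ≥0∞)⁻¹ * 16 = 1 := ENNReal.inv_mul_cancel (by norm_num) (by norm_num)
    calc (16 : ℝ≥0∞)⁻¹ * ∑ φ, ‖w + ∑ i, fl (kk i)
            (α i x * chi i φ * ex (N * inner ℝ (kk i) x))‖ₑ ^ p0
        ≤ (16 : ℝ≥0∞)⁻¹ * ∑ φ, (ENNReal.ofReal (|a| ^ p0 *
          (1 + 2 * e0 * g0 (chi1 φ * W1) (chi2 φ * W2) (chi3 φ * W3)
          + e0 ^ 2 * QQ (chi1 φ * W1) (chi2 φ * W2) (chi3 φ * W3)) ^ q0) + ‖w.snd‖ₑ ^ p0) :=
          mul_le_mul_right (Finset.sum_le_sum fun φ _ => hpt φ) _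
      _ ≤ (16 : ℝ≥0∞)⁻¹ * (16 * (ENNReal.ofReal lam0 * ‖a‖ₑ ^ p0) + 16 * ‖w.snd‖ₑ ^ p0) := by
          apply mul_le_mul_right
          rw [Finset.sum_add_distrib]
          apply add_le_add
          · rw [← ENNReal.ofReal_sum_of_nonneg, ← Finset.mul_sum]
            · have e6 : (16 : ℝ≥0∞) * (ENNReal.ofReal lam0 * ‖a‖ₑ ^ p0)
                  = ENNReal.ofReal (|a| ^ p0 * (16 * lam0)) := by
                rw [← ofReal_norm, Real.norm_eq_abs,
                  ENNReal.ofReal_rpow_of_nonneg (abs_nonneg _) hp.le,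
                  ← ENNReal.ofReal_mul lam0_pos.le]
                have : (16 : ℝ≥0∞) = ENNReal.ofReal 16 := by norm_num
                rw [this, ← ENNReal.ofReal_mul (by norm_num)]
                congr 1
                ring
              rw [e6]
              apply ENNReal.ofReal_le_ofReal
              apply mul_le_mul_of_nonneg_left _ (by positivity)
              exact sum_B (norm_ex _) (norm_ex _) (norm_ex _) hprod
            · intro φ _
              have hn1 : ‖chi1 φ * W1‖ = 1 := by rw [norm_mul, norm_chi1, norm_ex, one_mul]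
              have hn2 : ‖chi2 φ * W2‖ = 1 := by rw [norm_mul, norm_chi2, norm_ex, one_mul]
              have hn3 : ‖chi3 φ * W3‖ = 1 := by rw [norm_mul, norm_chi3, norm_ex, one_mul]
              have hpos := (log_le_PL (g0_abs hn1 hn2 hn3) (QQ_le hn1 hn2 hn3)
                (g0_sq_le_QQ _ _ _)).1
              positivity
          · rw [Finset.sum_const, Finset.card_univ, Fintype.card_prod, Fintype.card_fin,
              nsmul_eq_mul]
            norm_num
      _ = PsiA p0 lam0 w := by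
          rw [← mul_add, ← mul_assoc, h16, one_mul]
          rfl

end Pool.Agent.K7.H79.RZ
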