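import Mathlib

/-!
# Fourier integrals on the plane: conventions, a convolution formula, averages of shifts
-/

set_option autoImplicit false

open MeasureTheory Complex Real Filter Topology
open scoped SchwartzMap FourierTransform ENNReal NNReal ContDiff

namespace Pool.Agent.K7.H79.RZ

/-- the plane -/
abbrev E : Type := EuclideanSpace ℝ (Fin 2)

/-- `exp (2 π i s)` -/
noncomputable def ex (s : ℝ) : ℂ := Complex.exp (((2 * π * s : ℝ) : ℂ) * I)

lemma ex_add (s t : ℝ) : ex (s + t) = ex s * ex t := by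
  unfold ex
  rw [← Complex.exp_add]
  congr 1
  push_cast
  ring

lemma ex_zero : ex 0 = 1 := by simp [ex]

lemma norm_ex (s : ℝ) : ‖ex s‖ = 1 := by
  unfold ex
  rw [Complex.norm_exp_ofReal_mul_I]

lemma continuous_ex : Continuous ex := by
  unfold ex
  fun_prop

lemma conj_ex (s : ℝ) : (starRingEnd ℂ) (ex s) = ex (-s) := by
  unfold ex
  rw [← Complex.exp_conj]
  congr 1
  rw [map_mul, Complex.conj_I, Complex.conj_ofReal]
  push_cast
  ring

/-- the inverse Fourier integral -/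
noncomputable def U (h : E → ℂ) (x : E) : ℂ := ∫ ξ, ex (inner ℝ ξ x) * h ξ

/-- the Fourier integral -/
noncomputable def T (f : E → ℂ) (ξ : E) : ℂ := ∫ x, ex (-(inner ℝ x ξ)) * f x

lemma U_eq (h : E → ℂ) : U h = 𝓕⁻ h := by
  ext x
  rw [Real.fourierInv_eq']
  rfl

lemma T_eq (f : E → ℂ) : T f = 𝓕 f := by
  ext x
  rw [Real.fourier_eq']
  unfold T ex
  congr 1
  ext v
  rw [smul_eq_mul]
  congr 3
  push_cast
  ring

/-- rapid decay -/
def Dec (a : E → ℂ) : Prop := ∀ M : ℕ, ∃ C : ℝ, 0 ≤ C ∧ ∀ x, ‖a x‖ * (1 + ‖x‖) ^ M ≤ C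

lemma dec_schwartz (f : 𝓢(E, ℂ)) : Dec f := by
  intro M
  refine ⟨2 ^ M * (Finset.Iic (M, 0)).sup (fun m => SchwartzMap.seminorm ℂ m.1 m.2) f,
    by positivity, fun x => ?_⟩
  have := SchwartzMap.one_add_le_sup_seminorm_apply (𝕜 := ℂ) (m := (M, 0)) (k := M) (n := 0)
    le_rfl le_rfl f x
  rw [norm_iteratedFDeriv_zero] at this
  linarith

lemma Dec.of_compact {a : E → ℂ} (hc : Continuous a) (hs : HasCompactSupport a) : Dec a := by
  intro M
  obtain ⟨x₀, hx₀⟩ := (hc.norm.mul (by fun_prop : Continuous fun x : E => (1 + ‖x‖) ^ M)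
    ).exists_forall_ge_of_hasCompactSupport (hs.norm.mul_right)
  exact ⟨‖a x₀‖ * (1 + ‖x₀‖) ^ M, by positivity, hx₀⟩

lemma Dec.integrable {a : E → ℂ} (hc : Continuous a) (h : Dec a) : Integrable a := by
  obtain ⟨C, hC, h⟩ := h 3
  have h3 : Integrable fun x : E => (1 + ‖x‖) ^ (-(3 : ℝ)) :=
    integrable_one_add_norm (by simp; norm_num)
  refine (h3.const_mul C).mono' hc.aestronglyMeasurable (Eventually.of_forall fun x => ?_)
  have hx : 0 < 1 + ‖x‖ := by positivity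
  rw [Real.rpow_neg hx.le, ← div_eq_mul_inv, le_div_iff₀ (by positivity)]
  have := h x
  rw [← Real.rpow_natCast] at this
  exact_mod_cast this

/-- `U ((T κ) (τ ·) · g) (x) = ∫ κ (z) U g (x - τ z) dz` -/
theorem conv_formula {κ g : E → ℂ} (hκ : Integrable κ) (hg : Integrable g) (τ : ℝ) (x : E) :
    U (fun ξ => T κ (τ • ξ) * g ξ) x = ∫ z, κ z * U g (x - τ • z) := by
  unfold U T
  have h1 : ∀ ξ : E, ex (inner ℝ ξ x) * ((∫ z, ex (-(inner ℝ z (τ • ξ))) * κ z) * g ξ)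
      = ∫ z, ex (inner ℝ ξ x) * (ex (-(inner ℝ z (τ • ξ))) * (κ z * g ξ)) := by
    intro ξ
    rw [integral_const_mul]
    congr 1
    rw [← integral_mul_const]
    congr 1
    ext z
    ring
  have h2 : ∀ z : E, κ z * (∫ ξ, ex (inner ℝ ξ (x - τ • z)) * g ξ)
      = ∫ ξ, ex (inner ℝ ξ x) * (ex (-(inner ℝ z (τ • ξ))) * (κ z * g ξ)) := by
    intro z
    rw [← integral_const_mul]
    congr 1
    ext ξ
    have : ex (inner ℝ ξ (x - τ • z)) = ex (inner ℝ ξ x) * ex (-(inner ℝ z (τ • ξ))) := by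
      rw [← ex_add]
      congr 1
      rw [inner_sub_right, inner_smul_right, inner_smul_right, real_inner_comm z ξ]
      ring
    rw [this]
    ring
  simp_rw [h1, h2]
  apply integral_integral_swap
  have hp : Integrable (Function.uncurry fun (ξ : E) (z : E) => κ z * g ξ)
      (volume.prod volume) := by
    have := (hκ.mul_prod hg).swap
    exact this
  refine (hp.norm).mono' ?_ (Eventually.of_forall fun q => ?_)
  · apply AEStronglyMeasurable.mul
    · exact (continuous_ex.comp (by fun_prop)).aestronglyMeasurable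
    · apply AEStronglyMeasurable.mul
      · exact (continuous_ex.comp (by fun_prop)).aestronglyMeasurable
      · exact hp.aestronglyMeasurable
  · simp only [Function.uncurry, norm_mul, norm_ex, one_mul]
    exact le_rfl

/-- Peetre's inequality -/
lemma peetre (x z : E) {τ : ℝ} (hτ : |τ| ≤ 1) : 1 + ‖x‖ ≤ (1 + ‖x - τ • z‖) * (1 + ‖z‖) := by
  have h1 : ‖x‖ ≤ ‖x - τ • z‖ + ‖τ • z‖ := by
    have := norm_add_le (x - τ • z) (τ • z)
    rwa [sub_add_cancel] at this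
  have h2 : ‖τ • z‖ ≤ ‖z‖ := by
    rw [norm_smul, Real.norm_eq_abs]
    nlinarith [norm_nonneg z]
  nlinarith [norm_nonneg (x - τ • z), norm_nonneg z]

/-- averages of shifts of a rapidly decreasing function decrease rapidly, uniformly -/
lemma shift_bound {a : E → ℂ} (ha : Dec a) (M : ℕ) : ∃ C : ℝ, 0 ≤ C ∧ ∀ (x z : E) (τ : ℝ),
    |τ| ≤ 1 → ‖a (x - τ • z)‖ * (1 + ‖x‖) ^ M ≤ C * (1 + ‖z‖) ^ M := by
  obtain ⟨C, hC, h⟩ := ha M
  refine ⟨C, hC, fun x z τ hτ => ?_⟩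
  have h1 := pow_le_pow_left₀ (by positivity) (peetre x z hτ) M
  rw [mul_pow] at h1
  calc ‖a (x - τ • z)‖ * (1 + ‖x‖) ^ M
      ≤ ‖a (x - τ • z)‖ * ((1 + ‖x - τ • z‖) ^ M * (1 + ‖z‖) ^ M) := by gcongr
    _ = (‖a (x - τ • z)‖ * (1 + ‖x - τ • z‖) ^ M) * (1 + ‖z‖) ^ M := by ring
    _ ≤ C * (1 + ‖z‖) ^ M := by gcongr; exact h _

lemma kappa_weight {κ : E → ℂ} (hκc : Continuous κ) (hκ : Dec κ) (M : ℕ) :
    Integrable fun z : E => ‖κ z‖ * (1 + ‖z‖) ^ M := by
  have h1 : Dec fun z : E => (((1 + ‖z‖) ^ M : ℝ) : ℂ) * κ z := by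
    intro K
    obtain ⟨C, hC, h⟩ := hκ (M + K)
    refine ⟨C, hC, fun x => ?_⟩
    have h2 : (0 : ℝ) ≤ (1 + ‖x‖) ^ M := by positivity
    rw [norm_mul, Complex.norm_real, Real.norm_eq_abs, abs_of_nonneg h2]
    calc (1 + ‖x‖) ^ M * ‖κ x‖ * (1 + ‖x‖) ^ K = ‖κ x‖ * (1 + ‖x‖) ^ (M + K) := by
          rw [pow_add]; ring
      _ ≤ C := h x
  have h2 := (h1.integrable (by
    apply Continuous.mul _ hκc
    exact Complex.continuous_ofReal.comp (by fun_prop))).norm
  refine h2.congr (Eventually.of_forall fun z => ?_)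
  have h3 : (0 : ℝ) ≤ (1 + ‖z‖) ^ M := by positivity
  simp only [norm_mul, Complex.norm_real, Real.norm_eq_abs, abs_of_nonneg h3]
  ring

lemma lint_dec {p : ℝ} (hp : 0 < p) {M : ℕ} (hM : 3 ≤ p * M) (C : ℝ) :
    ∫⁻ x : E, (ENNReal.ofReal (C * (1 / (1 + ‖x‖) ^ M))) ^ p ≠ ⊤ := by
  have h3 : Integrable fun x : E => (1 + ‖x‖) ^ (-(3 : ℝ)) :=
    integrable_one_add_norm (by simp; norm_num)
  have h4 : ∫⁻ x : E, ENNReal.ofReal (max C 0 ^ p * (1 + ‖x‖) ^ (-(3 : ℝ))) < ⊤ := by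
    rw [← hasFiniteIntegral_iff_ofReal]
    · exact (h3.const_mul _).2
    · exact Eventually.of_forall fun x => by positivity
  refine ne_of_lt (lt_of_le_of_lt (lintegral_mono fun x => ?_) h4)
  have hx : 1 ≤ 1 + ‖x‖ := by linarith [norm_nonneg x]
  have hx0 : 0 < 1 + ‖x‖ := by positivity
  calc (ENNReal.ofReal (C * (1 / (1 + ‖x‖) ^ M))) ^ p
      ≤ (ENNReal.ofReal (max C 0 * (1 / (1 + ‖x‖) ^ M))) ^ p := by
        gcongr
        exact le_max_left _ _
    _ = ENNReal.ofReal ((max C 0 * (1 / (1 + ‖x‖) ^ M)) ^ p) := by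
        rw [ENNReal.ofReal_rpow_of_nonneg (by positivity) hp.le]
    _ ≤ ENNReal.ofReal (max C 0 ^ p * (1 + ‖x‖) ^ (-(3 : ℝ))) := by
        apply ENNReal.ofReal_le_ofReal
        rw [Real.mul_rpow (le_max_right _ _) (by positivity)]
        apply mul_le_mul_of_nonneg_left _ (by positivity)
        rw [one_div, Real.inv_rpow (by positivity), ← Real.rpow_natCast, ← Real.rpow_mul hx0.le,
          ← Real.rpow_neg hx0.le]
        apply Real.rpow_le_rpow_of_exponent_le hx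
        linarith

lemma exists_M {p : ℝ} (hp : 0 < p) : ∃ M : ℕ, 3 ≤ p * M := by
  obtain ⟨M, hM⟩ := exists_nat_gt (3 / p)
  refine ⟨M, ?_⟩
  rw [div_lt_iff₀ hp] at hM
  linarith

/-- averages of small shifts converge in `L^p`, `p > 0` -/
theorem av {κ a : E → ℂ} (hκc : Continuous κ) (hκ : Dec κ) (hac : Continuous a) (ha : Dec a)
    {p : ℝ} (hp : 0 < p) :
    Tendsto (fun τ : ℝ => ∫⁻ x, ‖∫ z, κ z * (a (x - τ • z) - a x)‖ₑ ^ p) (𝓝 0) (𝓝 0) := by
  obtain ⟨M, hM⟩ := exists_M hp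
  obtain ⟨C, hC, hb⟩ := shift_bound ha M
  have hw := kappa_weight hκc hκ M
  set K : ℝ := ∫ z, ‖κ z‖ * (1 + ‖z‖) ^ M with hK
  have hK0 : 0 ≤ K := integral_nonneg fun z => by positivity
  have hbnd : ∀ τ : ℝ, |τ| ≤ 1 → ∀ x z : E, ‖κ z * (a (x - τ • z) - a x)‖
      ≤ (2 * C * (1 / (1 + ‖x‖) ^ M)) * (‖κ z‖ * (1 + ‖z‖) ^ M) := by
    intro τ hτ x z
    have h1 := hb x z τ hτ
    have h2 := hb x z 0 (by simp)
    simp only [zero_smul, sub_zero] at h2
    have hx : 0 < (1 + ‖x‖) ^ M := by positivity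
    rw [norm_mul]
    have h3 : ‖a (x - τ • z) - a x‖ * (1 + ‖x‖) ^ M ≤ 2 * C * (1 + ‖z‖) ^ M := by
      have := norm_sub_le (a (x - τ • z)) (a x)
      nlinarith
    have h4 : ‖a (x - τ • z) - a x‖ ≤ 2 * C * (1 / (1 + ‖x‖) ^ M) * (1 + ‖z‖) ^ M := by
      rw [← le_div_iff₀ hx] at h3
      refine h3.trans (le_of_eq ?_)
      ring
    calc ‖κ z‖ * ‖a (x - τ • z) - a x‖ ≤ ‖κ z‖ * (2 * C * (1 / (1 + ‖x‖) ^ M) * (1 + ‖z‖) ^ M) := by
          gcongr
      _ = _ := by ring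
  have hlim : ∀ x : E, Tendsto (fun τ : ℝ => ∫ z, κ z * (a (x - τ • z) - a x)) (𝓝 0) (𝓝 0) := by
    intro x
    have h0 : (0 : ℂ) = ∫ z : E, (0 : ℂ) := by simp
    rw [h0]
    apply tendsto_integral_filter_of_dominated_convergence
      (fun z => (2 * C * (1 / (1 + ‖x‖) ^ M)) * (‖κ z‖ * (1 + ‖z‖) ^ M))
    · filter_upwards with τ
      exact (by fun_prop : Continuous fun z => κ z * (a (x - τ • z) - a x)).aestronglyMeasurable
    · have : ∀ᶠ τ : ℝ in 𝓝 0, |τ| ≤ 1 := by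
        have : Metric.closedBall (0 : ℝ) 1 ∈ 𝓝 (0 : ℝ) := Metric.closedBall_mem_nhds _ one_pos
        filter_upwards [this] with τ hτ
        simpa using hτ
      filter_upwards [this] with τ hτ
      exact Eventually.of_forall fun z => hbnd τ hτ x z
    · exact hw.const_mul _
    · refine Eventually.of_forall fun z => ?_
      have h1 : Continuous fun τ : ℝ => κ z * (a (x - τ • z) - a x) := by fun_prop
      have := h1.tendsto 0
      simpa using this
  have h0 : (0 : ℝ≥0∞) = ∫⁻ x : E, 0 := by simp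
  rw [h0]
  apply tendsto_lintegral_filter_of_dominated_convergence
    (fun x => (ENNReal.ofReal (2 * C * K * (1 / (1 + ‖x‖) ^ M))) ^ p)
  · filter_upwards with τ
    have : Measurable fun x : E => ∫ z, κ z * (a (x - τ • z) - a x) := by
      apply StronglyMeasurable.measurable
      apply StronglyMeasurable.integral_prod_right (f := fun x z => κ z * (a (x - τ • z) - a x))
      exact (by fun_prop : Continuous fun q : E × E =>
        κ q.2 * (a (q.1 - τ • q.2) - a q.1)).stronglyMeasurable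
    exact this.enorm.pow_const _
  · have : ∀ᶠ τ : ℝ in 𝓝 0, |τ| ≤ 1 := by
      have : Metric.closedBall (0 : ℝ) 1 ∈ 𝓝 (0 : ℝ) := Metric.closedBall_mem_nhds _ one_pos
      filter_upwards [this] with τ hτ
      simpa using hτ
    filter_upwards [this] with τ hτ
    refine Eventually.of_forall fun x => ?_
    apply ENNReal.rpow_le_rpow _ hp.le
    rw [← ofReal_norm]
    apply ENNReal.ofReal_le_ofReal
    calc ‖∫ z, κ z * (a (x - τ • z) - a x)‖
        ≤ ∫ z, (2 * C * (1 / (1 + ‖x‖) ^ M)) * (‖κ z‖ * (1 + ‖z‖) ^ M) :=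
          norm_integral_le_of_norm_le (hw.const_mul _) (Eventually.of_forall fun z => hbnd τ hτ x z)
      _ = 2 * C * K * (1 / (1 + ‖x‖) ^ M) := by rw [integral_const_mul, hK]; ring
  · exact lint_dec hp hM _
  · refine Eventually.of_forall fun x => ?_
    have h1 := (hlim x).enorm
    rw [enorm_zero] at h1
    have h2 := (ENNReal.continuous_rpow_const (y := p)).tendsto (0 : ℝ≥0∞)
    rw [ENNReal.zero_rpow_of_pos hp] at h2
    exact h2.comp h1

end Pool.Agent.K7.H79.RZ
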