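import Pool.Agent.K7.H79.RZ.Riesz

/-!
# Band-limited functions are dense in `L^p`, `0 < p ≤ 1`
-/

set_option autoImplicit false

open MeasureTheory Complex Real Filter Topology
open scoped SchwartzMap FourierTransform ENNReal NNReal ContDiff

namespace Pool.Agent.K7.H79.RZ

/-- the cut off -/
noncomputable def b0 : ContDiffBump (0 : E) := ⟨1, 2, by norm_num, by norm_num⟩

/-- the complex valued cut off -/
noncomputable def rho (ξ : E) : ℂ := ((b0 ξ : ℝ) : ℂ)

lemma rho_sc : SC rho := by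
  refine ⟨Complex.ofRealCLM.contDiff.comp b0.contDiff, ?_⟩
  exact b0.hasCompactSupport.comp_left (g := fun t : ℝ => (t : ℂ)) (by simp)

lemma rho_zero : rho 0 = 1 := by
  have : b0 (0 : E) = 1 := b0.one_of_mem_closedBall (by simp [b0])
  simp [rho, this]

lemma rho_one {ξ : E} (h : ‖ξ‖ ≤ 1) : rho ξ = 1 := by
  have : b0 ξ = 1 := b0.one_of_mem_closedBall (by simpa [b0] using h)
  simp [rho, this]

lemma rho_far {ξ : E} (h : 2 ≤ ‖ξ‖) : rho ξ = 0 := by
  have : b0 ξ = 0 := b0.zero_of_le_dist (by simpa [b0] using h)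
  simp [rho, this]

/-- the mollifier -/
noncomputable def psi : E → ℂ := U rho

lemma psi_cont : Continuous psi := rho_sc.U_cont
lemma psi_dec : Dec psi := rho_sc.U_dec
lemma T_psi : T psi = rho := rho_sc.T_U

lemma int_psi : ∫ z, psi z = 1 := by
  have h := congrFun T_psi 0
  rw [rho_zero] at h
  rw [← h]
  unfold T
  simp [ex_zero]

lemma U_scaled {δ : ℝ} (hδ : 0 < δ) (w : E) :
    U (fun ξ => rho (δ • ξ)) w = ((δ ^ 2)⁻¹ : ℝ) * psi (δ⁻¹ • w) := by
  unfold psi U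
  have h1 : ∀ ξ : E, ex (inner ℝ ξ w) * rho (δ • ξ)
      = (fun ζ : E => ex (inner ℝ ζ (δ⁻¹ • w)) * rho ζ) (δ • ξ) := by
    intro ξ
    simp only
    congr 2
    rw [inner_smul_left, inner_smul_right]
    simp only [conj_trivial]
    field_simp
  rw [integral_congr_ae (Eventually.of_forall h1),
    Measure.integral_comp_smul volume (fun ζ : E => ex (inner ℝ ζ (δ⁻¹ • w)) * rho ζ) δ,
    Complex.real_smul]
  congr 2
  have : Module.finrank ℝ E = 2 := by simp
  rw [this, abs_of_pos (by positivity)]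

lemma moll_formula {β : E → ℂ} (hβ : Integrable β) {δ : ℝ} (hδ : 0 < δ) (x : E) :
    U (fun ξ => rho (δ • ξ) * T β ξ) x = ∫ z, psi z * β (x - δ • z) := by
  have hr : SC fun ξ => rho (δ • ξ) := by
    refine ⟨rho_sc.smooth.comp (contDiff_const_smul δ), ?_⟩
    exact rho_sc.cpt.comp_homeomorph (Homeomorph.smulOfNeZero δ hδ.ne')
  have h1 := conv_formula hβ hr.integrable 1 x
  simp only [one_smul] at h1
  have h2 : (fun ξ => rho (δ • ξ) * T β ξ) = fun ξ => T β ξ * rho (δ • ξ) := by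
    ext ξ; ring
  rw [h2, h1]
  simp_rw [U_scaled hδ]
  rw [← integral_sub_left_eq_self _ _ x]
  simp only [sub_sub_cancel]
  have h3 : ∀ z : E, psi z * β (x - δ • z)
      = (fun y : E => psi (δ⁻¹ • y) * β (x - y)) (δ • z) := by
    intro z
    simp only
    rw [smul_smul, inv_mul_cancel₀ hδ.ne', one_smul]
  rw [integral_congr_ae (Eventually.of_forall h3),
    Measure.integral_comp_smul volume (fun y : E => psi (δ⁻¹ • y) * β (x - y)) δ,
    Complex.real_smul]
  have : Module.finrank ℝ E = 2 := by simp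
  rw [this, abs_of_pos (by positivity), ← integral_const_mul]
  congr 1
  ext y
  ring

lemma moll_sc {β : E → ℂ} (hc : Continuous β) (hs : HasCompactSupport β) {δ : ℝ} (hδ : 0 < δ) :
    SC fun ξ => rho (δ • ξ) * T β ξ := by
  have h1 : ContDiff ℝ ∞ (T β) := by
    rw [T_eq]
    apply Real.contDiff_fourier
    intro n _
    exact ((continuous_norm.pow n).mul hc.norm).integrable_of_hasCompactSupport
      (hs.norm.mul_left)
  refine ⟨(rho_sc.smooth.comp (contDiff_const_smul δ)).mul h1, ?_⟩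
  have : HasCompactSupport fun ξ : E => rho (δ • ξ) :=
    rho_sc.cpt.comp_homeomorph (Homeomorph.smulOfNeZero δ hδ.ne')
  exact this.mul_right

lemma dens_cc {p : ℝ} (hp : 0 < p) {β : E → ℂ} (hc : Continuous β) (hs : HasCompactSupport β)
    {η : ℝ≥0∞} (hη : η ≠ 0) : ∃ g, SC g ∧ ∫⁻ x, ‖U g x - β x‖ₑ ^ p ≤ η := by
  have h1 := av psi_cont psi_dec hc (Dec.of_compact hc hs) hp
  have h2 : ∀ᶠ τ : ℝ in 𝓝[>] 0, ∫⁻ x, ‖∫ z, psi z * (β (x - τ • z) - β x)‖ₑ ^ p < η :=
    (h1.mono_left nhdsWithin_le_nhds).eventually_lt_const (pos_iff_ne_zero.2 hη)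
  obtain ⟨δ, h3, hδ⟩ := (h2.and self_mem_nhdsWithin).exists
  have hδ' : 0 < δ := hδ
  refine ⟨_, moll_sc hc hs hδ', le_of_eq_of_le ?_ h3.le⟩
  congr 1
  ext x
  congr 2
  have hi : Integrable psi := psi_dec.integrable psi_cont
  obtain ⟨C, hC, hb⟩ := Dec.of_compact hc hs 0
  have hb1 : Integrable fun z => psi z * β (x - δ • z) := by
    refine (hi.norm.const_mul C).mono' ((psi_cont.mul (hc.comp (by fun_prop))
        ).aestronglyMeasurable) (Eventually.of_forall fun z => ?_)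
    rw [norm_mul, mul_comm]
    have := hb (x - δ • z)
    simp only [pow_zero, mul_one] at this
    gcongr
  rw [moll_formula (hc.integrable_of_hasCompactSupport hs) hδ']
  have : ∀ z, psi z * (β (x - δ • z) - β x) = psi z * β (x - δ • z) - psi z * β x := fun z => by
    ring
  simp_rw [this]
  rw [integral_sub hb1 (hi.mul_const _), integral_mul_const, int_psi, one_mul]

lemma enorm_sub_rpow_le {p : ℝ} (hp : 0 ≤ p) (hp1 : p ≤ 1) (a b c : ℂ) :
    ‖a - c‖ₑ ^ p ≤ ‖a - b‖ₑ ^ p + ‖b - c‖ₑ ^ p := by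
  refine le_trans (ENNReal.rpow_le_rpow ?_ hp) (ENNReal.rpow_add_le_add_rpow _ _ hp hp1)
  have : a - c = (a - b) + (b - c) := by ring
  rw [this]
  exact enorm_add_le _ _

theorem dens {p : ℝ} (hp : 0 < p) (hp1 : p ≤ 1) {α : E → ℂ}
    (hα : MemLp α (ENNReal.ofReal p) volume) {η : ℝ≥0∞} (hη : η ≠ 0) :
    ∃ g, SC g ∧ ∫⁻ x, ‖U g x - α x‖ₑ ^ p ≤ η := by
  have hη2 : η / 2 ≠ 0 := by
    simp [hη]
  have hp0 : ENNReal.ofReal p ≠ 0 := by simpa using hp
  have hε : (η / 2) ^ (1 / p) ≠ 0 := by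
    intro h
    rw [ENNReal.rpow_eq_zero_iff] at h
    rcases h with h | h
    · exact hη2 h.1
    · have : 0 < 1 / p := by positivity
      linarith [h.2]
  obtain ⟨β, hs, hβ, hc, hm⟩ := hα.exists_hasCompactSupport_eLpNorm_sub_le
    ENNReal.ofReal_ne_top hε
  obtain ⟨g, hg, hg2⟩ := dens_cc hp hc hs hη2
  refine ⟨g, hg, ?_⟩
  have h1 : ∫⁻ x, ‖β x - α x‖ₑ ^ p ≤ η / 2 := by
    have h2 := ENNReal.rpow_le_rpow hβ hp.le
    rw [← ENNReal.rpow_mul, one_div, inv_mul_cancel₀ hp.ne', ENNReal.rpow_one,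
      eLpNorm_eq_lintegral_rpow_enorm_toReal hp0 ENNReal.ofReal_ne_top,
      ENNReal.toReal_ofReal hp.le, ← ENNReal.rpow_mul, one_div, inv_mul_cancel₀ hp.ne',
      ENNReal.rpow_one] at h2
    refine le_of_eq_of_le ?_ h2
    congr 1
    ext x
    rw [Pi.sub_apply, ← enorm_neg, neg_sub]
  calc ∫⁻ x, ‖U g x - α x‖ₑ ^ p ≤ ∫⁻ x, (‖U g x - β x‖ₑ ^ p + ‖β x - α x‖ₑ ^ p) :=
        lintegral_mono fun x => enorm_sub_rpow_le hp.le hp1 _ _ _
    _ = (∫⁻ x, ‖U g x - β x‖ₑ ^ p) + ∫⁻ x, ‖β x - α x‖ₑ ^ p := by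
        apply lintegral_add_left
        exact ((hg.U_cont.sub hc).measurable.enorm.pow_const _)
    _ ≤ η / 2 + η / 2 := add_le_add hg2 h1
    _ = η := ENNReal.add_halves η

end Pool.Agent.K7.H79.RZ
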