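import Pool.Agent.K7.H79.RZ.BStep

/-!
# The fields can be made small without changing the low frequencies
-/

set_option autoImplicit false

open MeasureTheory Complex Real Filter Topology Metric
open scoped ENNReal NNReal

namespace Pool.Agent.K7.H79.RZ

/-- the contraction factor -/
noncomputable def th : ℝ := (1 + lam0 / Real.cos (p0 * π / 2)) / 2

lemma cos_p0_pos : 0 < Real.cos (p0 * π / 2) := lt_trans lam0_pos lam0_lt

lemma ratio_lt : lam0 / Real.cos (p0 * π / 2) < 1 := by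
  rw [div_lt_one cos_p0_pos]
  exact lam0_lt

lemma th_lt : th < 1 := by
  unfold th
  linarith [ratio_lt]

lemma both {h0 : E → ℂ} (H0 : Adm h0) (B : ℝ) {η : ℝ≥0∞} (hη : η ≠ 0) :
    ∃ h1, Adm h1 ∧ (∀ ξ, ‖ξ‖ ≤ B → h1 ξ = h0 ξ) ∧ ∫⁻ x, ‖field h1 x‖ₑ ^ p0
      ≤ ENNReal.ofReal th * (∫⁻ x, ‖field h0 x‖ₑ ^ p0) + η := by
  have hη2 : η / 2 ≠ 0 := by simp [hη]
  have hδ : 0 < (1 - lam0 / Real.cos (p0 * π / 2)) / 2 := by linarith [ratio_lt]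
  obtain ⟨h1, H1, e1, i1⟩ := stepA p0_pos p0_lt lam0_pos.le hδ H0 B hη2
  obtain ⟨h2, H2, e2, i2⟩ := stepB H1 B hη2
  refine ⟨h2, H2, fun ξ hξ => (e2 ξ hξ).trans (e1 ξ hξ), i2.trans ?_⟩
  refine (add_le_add i1 le_rfl).trans ?_
  have e3 : lam0 / Real.cos (p0 * π / 2) + (1 - lam0 / Real.cos (p0 * π / 2)) / 2 = th := by
    unfold th; ring
  rw [e3, add_assoc, ENNReal.add_halves]

theorem small {h0 : E → ℂ} (H0 : Adm h0) (B : ℝ) {ε : ℝ≥0∞} (hε : ε ≠ 0) :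
    ∃ h, Adm h ∧ (∀ ξ, ‖ξ‖ ≤ B → h ξ = h0 ξ) ∧ ∫⁻ x, ‖field h x‖ₑ ^ p0 ≤ ε := by
  set S : Set (E → ℂ) := {h | Adm h ∧ ∀ ξ, ‖ξ‖ ≤ B → h ξ = h0 ξ} with hS
  set F : (E → ℂ) → ℝ≥0∞ := fun h => ∫⁻ x, ‖field h x‖ₑ ^ p0 with hF
  set i : ℝ≥0∞ := ⨅ h : S, F h with hi
  have hle : ∀ h : S, i ≤ F h := fun h => iInf_le _ h
  have hifin : i ≠ ⊤ := by
    have h1 := hle ⟨h0, H0, fun _ _ => rfl⟩
    exact ne_of_lt (lt_of_le_of_lt h1 (field_lint_lt H0 p0_pos))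
  have : Nonempty S := ⟨⟨h0, H0, fun _ _ => rfl⟩⟩
  have hcontr : ∀ h : S, i ≤ ENNReal.ofReal th * F h := by
    rintro ⟨h, Hh, eh⟩
    apply ENNReal.le_of_forall_pos_le_add
    intro η hη _
    obtain ⟨h1, H1, e1, i1⟩ := both Hh B (η := η) (by exact_mod_cast hη.ne')
    exact (hle ⟨h1, H1, fun ξ hξ => (e1 ξ hξ).trans (eh ξ hξ)⟩).trans i1
  have hi2 : i ≤ ENNReal.ofReal th * i := by
    rw [hi, ENNReal.mul_iInf fun h => absurd h ENNReal.ofReal_ne_top]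
    exact le_iInf hcontr
  have hi0 : i = 0 := by
    by_contra hne
    have h1 : ENNReal.ofReal th * i < 1 * i := by
      apply ENNReal.mul_lt_mul_left hne hifin
      rw [← ENNReal.ofReal_one]
      exact (ENNReal.ofReal_lt_ofReal_iff one_pos).2 th_lt
    rw [one_mul] at h1
    exact absurd (lt_of_le_of_lt hi2 h1) (lt_irrefl _)
  have hlt : (⨅ h : S, F h) < ε := by
    rw [← hi, hi0]; exact pos_iff_ne_zero.2 hε
  obtain ⟨⟨h, Hh, eh⟩, hh⟩ := iInf_lt_iff.1 hlt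
  exact ⟨h, Hh, eh, hh.le⟩

end Pool.Agent.K7.H79.RZ
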