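import Pool.Agent.K7.H79.RZ.Key

/-!
# Real functions, the Riesz transforms and the maximal function
-/

set_option autoImplicit false

open MeasureTheory Complex Real Filter Topology Metric
open scoped ENNReal NNReal SchwartzMap FourierTransform

namespace Pool.Agent.K7.H79.RZ

lemma U_star (h : E → ℂ) (x : E) :
    U (fun ξ => (starRingEnd ℂ) (h (-ξ))) x = (starRingEnd ℂ) (U h x) := by
  unfold U
  rw [← integral_conj, ← integral_neg_eq_self]
  congr 1
  ext ξ
  simp only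
  rw [neg_neg, map_mul, conj_ex, inner_neg_left]

/-- hermitian symmetrisation -/
noncomputable def hsym (h : E → ℂ) (ξ : E) : ℂ :=
  (1 / 2 : ℂ) * h ξ + (1 / 2 : ℂ) * (starRingEnd ℂ) (h (-ξ))

lemma hsym_adm {h : E → ℂ} (H : Adm h) : Adm (hsym h) :=
  (H.const_mul _).add (H.star.const_mul _)

lemma U_hsym {h : E → ℂ} (H : Adm h) (x : E) : U (hsym h) x = ((U h x).re : ℂ) := by
  have e : hsym h = fun ξ => (1 / 2 : ℂ) * h ξ + (1 / 2 : ℂ) * (starRingEnd ℂ) (h (-ξ)) := rfl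
  rw [e, (H.const_mul _).sc.U_add (H.star.const_mul _).sc]
  simp only
  rw [U_const_mul, U_const_mul, U_star, Complex.re_eq_add_conj]
  ring

lemma m_hsym (j : Fin 2) (h : E → ℂ) :
    (fun ξ => m j ξ * hsym h ξ) = hsym fun ξ => m j ξ * h ξ := by
  ext ξ
  unfold hsym
  rw [map_mul, conj_m, m_neg]
  ring

lemma hsym_congr {h h' : E → ℂ} {B : ℝ} (e : ∀ ξ, ‖ξ‖ ≤ B → h' ξ = h ξ) {ξ : E} (hξ : ‖ξ‖ ≤ B) :
    hsym h' ξ = hsym h ξ := by
  unfold hsym
  rw [e ξ hξ, e (-ξ) (by rwa [norm_neg])]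

/-- duality -/
lemma pair {g ψ : E → ℂ} (hg : SC g) (hψ : Integrable ψ) :
    ∫ x, U g x * T ψ x = ∫ ξ, g ξ * ψ ξ := by
  have hU : Integrable (U g) := hg.U_dec.integrable hg.U_cont
  have h1 : ∀ x, U g x * T ψ x = ∫ ξ, ex (-(inner ℝ ξ x)) * (U g x * ψ ξ) := by
    intro x
    unfold T
    rw [← integral_const_mul]
    congr 1
    ext ξ
    ring
  have h2 : ∀ ξ, g ξ * ψ ξ = ∫ x, ex (-(inner ℝ ξ x)) * (U g x * ψ ξ) := by
    intro ξ
    nth_rw 1 [← hg.T_U]
    unfold T
    rw [← integral_mul_const]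
    congr 1
    ext x
    rw [real_inner_comm x ξ]
    ring
  simp_rw [h1, h2]
  apply integral_integral_swap
  have hp : Integrable (Function.uncurry fun (x : E) (ξ : E) => U g x * ψ ξ)
      (volume.prod volume) := hU.mul_prod hψ
  refine (hp.norm).mono' ?_ (Eventually.of_forall fun q => ?_)
  · apply AEStronglyMeasurable.mul
    · exact (continuous_ex.comp (by fun_prop)).aestronglyMeasurable
    · exact hp.aestronglyMeasurable
  · simp only [Function.uncurry, norm_mul, norm_ex, one_mul]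
    exact le_rfl

lemma dil_formula {g : E → ℂ} (hg : SC g) {t : ℝ} (ht : 0 < t) (x : E) :
    ∫ y, (((t ^ 2)⁻¹ : ℝ) : ℂ) * psi (t⁻¹ • (x - y)) * U g y
      = ∫ z, psi z * U g (x - t • z) := by
  rw [← integral_sub_left_eq_self _ volume x]
  have e1 : ∀ w : E, (((t ^ 2)⁻¹ : ℝ) : ℂ) * psi (t⁻¹ • (x - (x - w))) * U g (x - w)
      = (((t ^ 2)⁻¹ : ℝ) : ℂ) * (fun z : E => psi z * U g (x - t • z)) (t⁻¹ • w) := by
    intro w
    simp only
    rw [sub_sub_cancel, smul_smul, mul_inv_cancel₀ ht.ne', one_smul]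
    ring
  rw [integral_congr_ae (Eventually.of_forall e1), integral_const_mul,
    Measure.integral_comp_inv_smul_of_nonneg volume
      (fun z : E => psi z * U g (x - t • z)) ht.le]
  have hd : Module.finrank ℝ E = 2 := by simp
  rw [hd, Complex.real_smul, ← mul_assoc, ← Complex.ofReal_mul,
    inv_mul_cancel₀ (by positivity), Complex.ofReal_one, one_mul]

lemma max_formula {g : E → ℂ} (hg : SC g) {t : ℝ} (ht : 0 < t) (x : E) :
    ∫ y, (((t ^ 2)⁻¹ : ℝ) : ℂ) * psi (t⁻¹ • (x - y)) * U g y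
      = U (fun ξ => rho (t • ξ) * g ξ) x := by
  rw [dil_formula hg ht, ← conv_formula (psi_dec.integrable psi_cont) hg.integrable, T_psi]

/-- the maximal function is rapidly decreasing -/
lemma max_bound {g : E → ℂ} (hg : Adm g) (M : ℕ) : ∃ C : ℝ, 0 ≤ C ∧ ∀ (x : E) (t : ℝ), 0 < t →
    ‖∫ y, (((t ^ 2)⁻¹ : ℝ) : ℂ) * psi (t⁻¹ • (x - y)) * U g y‖ ≤ C * (1 / (1 + ‖x‖) ^ M) := by
  obtain ⟨r, hr, hr0⟩ : ∃ r > 0, ∀ ξ : E, ‖ξ‖ < r → g ξ = 0 := by
    have h1 := (notMem_tsupport_iff _ _).1 hg.zero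
    obtain ⟨r, hr, h⟩ := Metric.eventually_nhds_iff.1 h1
    exact ⟨r, hr, fun ξ hξ => h (by simpa using hξ)⟩
  set T0 : ℝ := max (2 / r) 1 with hT0
  have hT1 : 1 ≤ T0 := le_max_right _ _
  have hTp : 0 < T0 := by linarith
  obtain ⟨C, hC, hb⟩ := shift_bound hg.sc.U_dec M
  have hw := kappa_weight psi_cont psi_dec M
  set K : ℝ := ∫ z, ‖psi z‖ * (1 + ‖z‖) ^ M with hK
  have hK0 : 0 ≤ K := integral_nonneg fun z => by positivity
  refine ⟨C * T0 ^ M * K, by positivity, fun x t ht => ?_⟩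
  have hx : 0 < (1 + ‖x‖) ^ M := by positivity
  rw [mul_one_div, le_div_iff₀ hx]
  rcases le_or_gt T0 t with h | h
  · rw [max_formula hg.sc ht]
    have e : (fun ξ => rho (t • ξ) * g ξ) = fun _ => 0 := by
      ext ξ
      rcases lt_or_ge ‖ξ‖ r with h2 | h2
      · rw [hr0 ξ h2, mul_zero]
      · rw [rho_far, zero_mul]
        rw [norm_smul, Real.norm_eq_abs, abs_of_pos ht]
        have h3 : 2 / r ≤ t := (le_max_left _ _).trans h
        rw [div_le_iff₀ hr] at h3
        nlinarith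
    rw [e]
    unfold U
    simp only [mul_zero, integral_zero, norm_zero, zero_mul]
    positivity
  · rw [dil_formula hg.sc ht]
    have hpt : ∀ z : E, ‖psi z * U g (x - t • z)‖ * (1 + ‖x‖) ^ M
        ≤ C * T0 ^ M * (‖psi z‖ * (1 + ‖z‖) ^ M) := by
      intro z
      have h1 := hb x (T0 • z) (t / T0) (by
        rw [abs_of_pos (by positivity), div_le_one hTp]; exact h.le)
      rw [smul_smul, div_mul_cancel₀ _ hTp.ne', norm_smul, Real.norm_eq_abs, abs_of_pos hTp] at h1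
      have h2 : (1 + T0 * ‖z‖) ^ M ≤ T0 ^ M * (1 + ‖z‖) ^ M := by
        rw [← mul_pow]
        apply pow_le_pow_left₀ (by positivity)
        nlinarith
      rw [norm_mul]
      calc ‖psi z‖ * ‖U g (x - t • z)‖ * (1 + ‖x‖) ^ M
          = ‖psi z‖ * (‖U g (x - t • z)‖ * (1 + ‖x‖) ^ M) := by ring
        _ ≤ ‖psi z‖ * (C * (T0 ^ M * (1 + ‖z‖) ^ M)) := by
            apply mul_le_mul_of_nonneg_left _ (norm_nonneg _)
            exact h1.trans (mul_le_mul_of_nonneg_left h2 hC)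
        _ = C * T0 ^ M * (‖psi z‖ * (1 + ‖z‖) ^ M) := by ring
    calc ‖∫ z, psi z * U g (x - t • z)‖ * (1 + ‖x‖) ^ M
        ≤ (∫ z, ‖psi z * U g (x - t • z)‖) * (1 + ‖x‖) ^ M := by
          gcongr
          exact norm_integral_le_integral_norm _
      _ = ∫ z, ‖psi z * U g (x - t • z)‖ * (1 + ‖x‖) ^ M := by rw [integral_mul_const]
      _ ≤ ∫ z, C * T0 ^ M * (‖psi z‖ * (1 + ‖z‖) ^ M) := by
          apply integral_mono_of_nonneg
          · exact Eventually.of_forall fun z => by positivity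
          · exact hw.const_mul _
          · exact Eventually.of_forall hpt
      _ = C * T0 ^ M * K := by rw [integral_const_mul]

/-- the Schwartz function with compactly supported Fourier transform -/
noncomputable def phi0 : 𝓢(E, ℂ) := 𝓕⁻ rho_sc.toS

lemma phi0_coe : (phi0 : E → ℂ) = psi := rho_sc.U_coe.symm

lemma int_phi0 : ∫ x, phi0 x = 1 := by
  rw [phi0_coe]; exact int_psi

/-- the starting function -/
noncomputable def bmp : ContDiffBump (EuclideanSpace.single 0 (1 / 2) : E) :=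
  ⟨1 / 8, 1 / 4, by norm_num, by norm_num⟩

/-- the starting function -/
noncomputable def hini (ξ : E) : ℂ := ((bmp ξ : ℝ) : ℂ)

lemma norm_vv : ‖(EuclideanSpace.single 0 (1 / 2) : E)‖ = 1 / 2 := by simp

lemma hini_far {ξ : E} (h : 1 / 4 ≤ ‖ξ - EuclideanSpace.single 0 (1 / 2)‖) : hini ξ = 0 := by
  have : bmp ξ = 0 := bmp.zero_of_le_dist (by simpa [bmp, dist_eq_norm] using h)
  simp [hini, this]

lemma hini_adm : Adm hini := by
  refine ⟨Complex.ofRealCLM.contDiff.comp bmp.contDiff, ?_, ?_⟩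
  · exact bmp.hasCompactSupport.comp_left (g := fun t : ℝ => (t : ℂ)) (by simp)
  · rw [notMem_tsupport_iff]
    filter_upwards [Metric.ball_mem_nhds (0 : E) (by norm_num : (0 : ℝ) < 1 / 4)] with ξ hξ
    rw [mem_ball_zero_iff] at hξ
    apply hini_far
    have := norm_sub_norm_le (EuclideanSpace.single 0 (1 / 2) : E) ξ
    rw [norm_vv, norm_sub_rev] at this
    linarith

lemma hini_one : hini (EuclideanSpace.single 0 (1 / 2)) = 1 := by
  have : bmp (EuclideanSpace.single 0 (1 / 2)) = 1 :=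
    bmp.one_of_mem_closedBall (by simp [bmp])
  unfold hini
  rw [this, Complex.ofReal_one]

lemma hini_neg : hini (-(EuclideanSpace.single 0 (1 / 2))) = 0 := by
  apply hini_far
  rw [← neg_add', norm_neg, ← two_smul ℝ, norm_smul, norm_vv]
  norm_num

/-- the lower bound -/
noncomputable def glow (ξ : E) : ℂ := rho ((1 : ℝ) • ξ) * hsym hini ξ

lemma glow_sc : SC glow := by
  refine ⟨?_, (hsym_adm hini_adm).cpt.mul_left⟩
  exact (rho_sc.smooth.comp (contDiff_const_smul 1)).mul (hsym_adm hini_adm).smooth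

lemma glow_ne : glow (EuclideanSpace.single 0 (1 / 2)) ≠ 0 := by
  unfold glow hsym
  rw [one_smul, rho_one (by rw [norm_vv]; norm_num), hini_one, hini_neg]
  simp

lemma low_pos {p : ℝ} (hp : 0 < p) : 0 < ∫⁻ x, ‖U glow x‖ₑ ^ p := by
  rw [pos_iff_ne_zero]
  intro h
  have hc : Continuous (U glow) := glow_sc.U_cont
  rw [lintegral_eq_zero_iff (hc.measurable.enorm.pow_const _)] at h
  have h1 : U glow =ᵐ[volume] 0 := by
    filter_upwards [h] with x hx
    simp only [Pi.zero_apply] at hx ⊢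
    rw [ENNReal.rpow_eq_zero_iff] at hx
    rcases hx with ⟨h1, _⟩ | ⟨_, h2⟩
    · simpa using h1
    · linarith
  have h2 : U glow = 0 := (Continuous.ae_eq_iff_eq volume hc continuous_zero).1 h1
  have h3 : glow = 0 := by
    rw [← glow_sc.T_U, h2]
    ext ξ
    unfold T
    simp
  exact glow_ne (congrFun h3 _)

/-- the truncated low part does not change -/
lemma low_eq {h : E → ℂ} (e : ∀ ξ, ‖ξ‖ ≤ 2 → h ξ = hini ξ) :
    (fun ξ => rho ((1 : ℝ) • ξ) * hsym h ξ) = glow := by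
  ext ξ
  unfold glow
  rcases le_or_gt ‖ξ‖ 2 with h1 | h1
  · rw [hsym_congr e h1]
  · rw [one_smul, rho_far h1.le, zero_mul, zero_mul]

end Pool.Agent.K7.H79.RZ
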