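import Pool.Agent.K7.H79.RZ.Basic

/-!
# Riesz transforms of modulated band-limited functions
-/

set_option autoImplicit false

open MeasureTheory Complex Real Filter Topology
open scoped SchwartzMap FourierTransform ENNReal NNReal ContDiff

namespace Pool.Agent.K7.H79.RZ

/-- the symbol of the Riesz transform -/
noncomputable def m (j : Fin 2) (ξ : E) : ℂ :=
  -I * ((inner ℝ ξ (EuclideanSpace.single j (1 : ℝ)) : ℝ) : ℂ) / ((‖ξ‖ : ℝ) : ℂ)

lemma inner_single (ξ : E) (j : Fin 2) : inner ℝ ξ (EuclideanSpace.single j (1 : ℝ)) = ξ j := by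
  simp [EuclideanSpace.inner_single_right]

lemma m_eq (j : Fin 2) (ξ : E) : m j ξ = -I * ((ξ j : ℝ) : ℂ) / ((‖ξ‖ : ℝ) : ℂ) := by
  rw [m, inner_single]

lemma m_neg (j : Fin 2) (ξ : E) : m j (-ξ) = -m j ξ := by
  rw [m_eq, m_eq]; simp [neg_div]

lemma conj_m (j : Fin 2) (ξ : E) : (starRingEnd ℂ) (m j ξ) = -m j ξ := by
  rw [m_eq]; simp [neg_div]

lemma m_smul (j : Fin 2) {t : ℝ} (ht : 0 < t) (ξ : E) : m j (t • ξ) = m j ξ := by
  rw [m_eq, m_eq, norm_smul, Real.norm_eq_abs, abs_of_pos ht]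
  simp only [PiLp.smul_apply, smul_eq_mul, Complex.ofReal_mul]
  rcases eq_or_ne (‖ξ‖ : ℂ) 0 with h | h
  · rw [h]; simp
  · have : (t : ℂ) ≠ 0 := by exact_mod_cast ht.ne'
    field_simp

lemma norm_m_le (j : Fin 2) (ξ : E) : ‖m j ξ‖ ≤ 1 := by
  rw [m_eq, norm_div, norm_mul, norm_neg, Complex.norm_I, one_mul, Complex.norm_real,
    Complex.norm_real, norm_norm]
  apply div_le_one_of_le₀ _ (norm_nonneg _)
  exact PiLp.norm_apply_le ξ j

lemma m_contDiffAt (j : Fin 2) {ξ : E} (hξ : ξ ≠ 0) : ContDiffAt ℝ ∞ (m j) ξ := by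
  have h0 : m j = fun ξ : E => -I * (((ξ j) : ℝ) : ℂ) / ((‖ξ‖ : ℝ) : ℂ) := by
    ext ξ; exact m_eq j ξ
  rw [h0]
  have h1 : ContDiffAt ℝ ∞ (fun ξ : E => ((‖ξ‖ : ℝ) : ℂ)) ξ :=
    Complex.ofRealCLM.contDiff.contDiffAt.comp ξ (contDiffAt_norm ℝ hξ)
  have h2 : ContDiffAt ℝ ∞ (fun ξ : E => (((ξ j) : ℝ) : ℂ)) ξ := by
    have : ContDiff ℝ ∞ fun ξ : E => ξ j := by fun_prop
    exact Complex.ofRealCLM.contDiff.contDiffAt.comp ξ this.contDiffAt
  have h3 : ContDiffAt ℝ ∞ (fun ξ : E => (((‖ξ‖ : ℝ) : ℂ))⁻¹) ξ :=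
    h1.inv (Complex.ofReal_ne_zero.2 (norm_ne_zero_iff.2 hξ))
  simp_rw [div_eq_mul_inv]
  exact (contDiffAt_const.mul h2).mul h3

/-- smooth with compact support -/
structure SC (g : E → ℂ) : Prop where
  smooth : ContDiff ℝ ∞ g
  cpt : HasCompactSupport g

/-- smooth with compact support, zero near the origin -/
structure Adm (g : E → ℂ) : Prop where
  smooth : ContDiff ℝ ∞ g
  cpt : HasCompactSupport g
  zero : (0 : E) ∉ tsupport g

lemma Adm.sc {g : E → ℂ} (h : Adm g) : SC g := ⟨h.smooth, h.cpt⟩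

lemma SC.integrable {g : E → ℂ} (h : SC g) : Integrable g :=
  h.smooth.continuous.integrable_of_hasCompactSupport h.cpt

/-- as a Schwartz map -/
noncomputable def SC.toS {g : E → ℂ} (h : SC g) : 𝓢(E, ℂ) := h.cpt.toSchwartzMap h.smooth

lemma SC.U_coe {g : E → ℂ} (h : SC g) : U g = ((𝓕⁻ h.toS : 𝓢(E, ℂ)) : E → ℂ) := by
  rw [U_eq, SchwartzMap.fourierInv_coe]
  rfl

lemma SC.U_dec {g : E → ℂ} (h : SC g) : Dec (U g) := by
  rw [h.U_coe]; exact dec_schwartz _

lemma SC.U_cont {g : E → ℂ} (h : SC g) : Continuous (U g) := by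
  rw [h.U_coe]; exact SchwartzMap.continuous _

lemma SC.T_U {g : E → ℂ} (h : SC g) : T (U g) = g := by
  rw [h.U_coe, T_eq, ← SchwartzMap.fourier_coe, FourierTransform.fourier_fourierInv_eq]
  rfl

lemma SC.U_add {g g' : E → ℂ} (h : SC g) (h' : SC g') :
    U (fun ξ => g ξ + g' ξ) = fun x => U g x + U g' x := by
  ext x
  unfold U
  rw [← integral_add]
  · congr 1; ext ξ; ring
  · exact (h.integrable.norm).mono' ((continuous_ex.comp (by fun_prop)).mul
      h.smooth.continuous).aestronglyMeasurable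
      (Eventually.of_forall fun ξ => by simp [norm_ex])
  · exact (h'.integrable.norm).mono' ((continuous_ex.comp (by fun_prop)).mul
      h'.smooth.continuous).aestronglyMeasurable
      (Eventually.of_forall fun ξ => by simp [norm_ex])

lemma U_const_mul (c : ℂ) (g : E → ℂ) (x : E) : U (fun ξ => c * g ξ) x = c * U g x := by
  unfold U
  rw [← integral_const_mul]
  congr 1; ext ξ; ring

lemma SC.add {g g' : E → ℂ} (h : SC g) (h' : SC g') : SC fun ξ => g ξ + g' ξ :=
  ⟨h.smooth.add h'.smooth, h.cpt.add h'.cpt⟩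

lemma SC.const_mul {g : E → ℂ} (h : SC g) (c : ℂ) : SC fun ξ => c * g ξ :=
  ⟨contDiff_const.mul h.smooth, h.cpt.mul_left⟩

lemma SC.shift {g : E → ℂ} (h : SC g) (v : E) : SC fun ξ => g (ξ - v) := by
  refine ⟨h.smooth.comp (by fun_prop), ?_⟩
  have := h.cpt.comp_homeomorph (Homeomorph.subRight v)
  exact this

lemma notMem_tsupport_iff (g : E → ℂ) (x : E) : x ∉ tsupport g ↔ g =ᶠ[𝓝 x] 0 :=
  notMem_tsupport_iff_eventuallyEq

lemma Adm.add {g g' : E → ℂ} (h : Adm g) (h' : Adm g') : Adm fun ξ => g ξ + g' ξ := by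
  refine ⟨h.smooth.add h'.smooth, h.cpt.add h'.cpt, ?_⟩
  rw [notMem_tsupport_iff]
  filter_upwards [(notMem_tsupport_iff _ _).1 h.zero, (notMem_tsupport_iff _ _).1 h'.zero]
    with x hx hx'
  simp [hx, hx']

lemma Adm.const_mul {g : E → ℂ} (h : Adm g) (c : ℂ) : Adm fun ξ => c * g ξ := by
  refine ⟨contDiff_const.mul h.smooth, h.cpt.mul_left, ?_⟩
  rw [notMem_tsupport_iff]
  filter_upwards [(notMem_tsupport_iff _ _).1 h.zero] with x hx
  simp [hx]

lemma Adm.sum {ι : Type*} (s : Finset ι) {g : ι → E → ℂ} (h : ∀ i ∈ s, Adm (g i)) :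
    Adm fun ξ => ∑ i ∈ s, g i ξ := by
  classical
  induction s using Finset.induction_on with
  | empty =>
    simp only [Finset.sum_empty]
    refine ⟨contDiff_const, HasCompactSupport.zero, ?_⟩
    rw [notMem_tsupport_iff]
    exact Eventually.of_forall fun x => rfl
  | insert i s hi ih =>
    simp_rw [Finset.sum_insert hi]
    exact (h i (Finset.mem_insert_self _ _)).add (ih fun j hj => h j (Finset.mem_insert_of_mem hj))

lemma Adm.m_mul {g : E → ℂ} (h : Adm g) (j : Fin 2) : Adm fun ξ => m j ξ * g ξ := by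
  refine ⟨?_, h.cpt.mul_left, ?_⟩
  · rw [contDiff_iff_contDiffAt]
    intro ξ
    by_cases hξ : ξ = 0
    · rw [hξ]
      have : (fun ξ => m j ξ * g ξ) =ᶠ[𝓝 0] fun _ => (0 : ℂ) := by
        filter_upwards [(notMem_tsupport_iff _ _).1 h.zero] with x hx
        simp [hx]
      exact contDiffAt_const.congr_of_eventuallyEq this
    · exact (m_contDiffAt j hξ).mul h.smooth.contDiffAt
  · rw [notMem_tsupport_iff]
    filter_upwards [(notMem_tsupport_iff _ _).1 h.zero] with x hx
    simp [hx]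

/-- reflected conjugate -/
lemma Adm.star {g : E → ℂ} (h : Adm g) : Adm fun ξ => (starRingEnd ℂ) (g (-ξ)) := by
  refine ⟨?_, ?_, ?_⟩
  · have h1 : ContDiff ℝ ∞ fun ξ : E => g (-ξ) := h.smooth.comp contDiff_neg
    exact Complex.conjCLE.contDiff.comp h1
  · have h1 : HasCompactSupport fun ξ : E => g (-ξ) := h.cpt.comp_homeomorph (Homeomorph.neg E)
    exact h1.comp_left (map_zero _)
  · rw [notMem_tsupport_iff]
    have h1 := (notMem_tsupport_iff _ _).1 h.zero
    have h2 : Tendsto (fun x : E => -x) (𝓝 0) (𝓝 0) := by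
      have := (continuous_neg (G := E)).tendsto 0
      simpa using this
    filter_upwards [h2.eventually h1] with x hx
    simp [hx]

/-- far shifts of `g` vanish near the origin -/
lemma SC.shift_far {g : E → ℂ} (h : SC g) {k : E} (hk : k ≠ 0) (B : ℝ) :
    ∀ᶠ N : ℕ in atTop, ∀ ξ : E, ‖ξ‖ ≤ B → g (ξ - (N : ℝ) • k) = 0 := by
  obtain ⟨R, hR⟩ := h.cpt.isCompact.isBounded.subset_closedBall (0 : E)
  have hkn : 0 < ‖k‖ := norm_pos_iff.2 hk
  obtain ⟨N0, hN0⟩ := exists_nat_gt ((B + R) / ‖k‖)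
  filter_upwards [eventually_ge_atTop N0] with N hN ξ hξ
  by_contra hne
  have h1 : ξ - (N : ℝ) • k ∈ tsupport g := subset_tsupport _ hne
  have h2 := hR h1
  rw [mem_closedBall_zero_iff] at h2
  have h3 : (N : ℝ) * ‖k‖ ≤ ‖ξ - (N : ℝ) • k‖ + ‖ξ‖ := by
    have := norm_sub_le ξ (ξ - (N : ℝ) • k)
    rw [sub_sub_cancel, norm_smul, Real.norm_of_nonneg (Nat.cast_nonneg _)] at this
    linarith
  rw [div_lt_iff₀ hkn] at hN0
  have h4 : (N0 : ℝ) ≤ N := by exact_mod_cast hN
  nlinarith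

lemma SC.shift_adm {g : E → ℂ} (h : SC g) {k : E} (hk : k ≠ 0) :
    ∀ᶠ N : ℕ in atTop, Adm fun ξ => g (ξ - (N : ℝ) • k) := by
  filter_upwards [h.shift_far hk 1] with N hN
  refine ⟨(h.shift _).smooth, (h.shift _).cpt, ?_⟩
  rw [notMem_tsupport_iff]
  filter_upwards [Metric.closedBall_mem_nhds (0 : E) one_pos] with ξ hξ
  exact hN ξ (by simpa using hξ)

lemma U_shift (g : E → ℂ) (v x : E) :
    U (fun ξ => g (ξ - v)) x = ex (inner ℝ v x) * U g x := by
  unfold U
  rw [← integral_add_right_eq_self _ v, ← integral_const_mul]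
  congr 1
  ext ξ
  simp only
  rw [add_sub_cancel_right, inner_add_left, ex_add]
  ring

/-- **Riesz transforms of modulated functions.** -/
theorem riesz_shift {g : E → ℂ} (h : SC g) {k : E} (hk : k ≠ 0) (j : Fin 2) :
    ∃ err : ℕ → E → ℂ, (∀ᶠ N : ℕ in atTop, ∀ x, U (fun ξ => m j ξ * g (ξ - (N : ℝ) • k)) x
        = ex (N * inner ℝ k x) * (m j k * U g x + err N x)) ∧ (∀ N, Measurable (err N)) ∧
      ∀ p : ℝ, 0 < p → Tendsto (fun N : ℕ => ∫⁻ x, ‖err N x‖ₑ ^ p) atTop (𝓝 0) := by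
  have hkn : 0 < ‖k‖ := norm_pos_iff.2 hk
  -- the cut off symbol
  let b : ContDiffBump k := ⟨‖k‖ / 4, ‖k‖ / 2, by positivity, by linarith⟩
  set Mf : E → ℂ := fun ξ => m j ξ * ((b ξ : ℝ) : ℂ) with hMf
  have hbs : ContDiff ℝ ∞ fun ξ : E => ((b ξ : ℝ) : ℂ) :=
    Complex.ofRealCLM.contDiff.comp b.contDiff
  have hM : SC Mf := by
    refine ⟨?_, ?_⟩
    · rw [contDiff_iff_contDiffAt]
      intro ξ
      by_cases hξ : ξ = 0
      · rw [hξ]
        have : Mf =ᶠ[𝓝 0] fun _ => (0 : ℂ) := by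
          filter_upwards [Metric.ball_mem_nhds (0 : E) (by positivity : 0 < ‖k‖ / 2)] with x hx
          have h1 : b x = 0 := by
            apply b.zero_of_le_dist
            rw [mem_ball_zero_iff] at hx
            rw [dist_eq_norm]
            have := norm_sub_le (x - k) x
            rw [sub_sub_cancel_left, norm_neg] at this
            show ‖k‖ / 2 ≤ _
            linarith
          simp [hMf, h1]
        exact contDiffAt_const.congr_of_eventuallyEq this
      · exact (m_contDiffAt j hξ).mul hbs.contDiffAt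
    · have : HasCompactSupport fun ξ : E => ((b ξ : ℝ) : ℂ) := b.hasCompactSupport.comp_left
        (g := fun t : ℝ => (t : ℂ)) (by simp)
      exact this.mul_left
  set κ : E → ℂ := U Mf with hκ
  have hκc : Continuous κ := hM.U_cont
  have hκd : Dec κ := hM.U_dec
  have hTκ : T κ = Mf := hM.T_U
  set κ' : E → ℂ := fun z => κ z * ex (-(inner ℝ z k)) with hκ'
  have hκ'c : Continuous κ' := hκc.mul (continuous_ex.comp (by fun_prop))
  have hκ'd : Dec κ' := by
    intro M
    obtain ⟨C, hC, h⟩ := hκd M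
    refine ⟨C, hC, fun x => ?_⟩
    simpa [hκ', norm_ex] using h x
  have hTκ' : ∀ ζ, T κ' ζ = Mf (k + ζ) := by
    intro ζ
    rw [← hTκ]
    unfold T
    congr 1
    ext z
    rw [hκ', inner_add_right, neg_add, ex_add]
    ring
  have hint : ∫ z, κ' z = m j k := by
    have h1 := hTκ' 0
    have h2 : T κ' 0 = ∫ z, κ' z := by
      unfold T
      simp [ex_zero]
    rw [← h2, h1, add_zero, hMf]
    have : b k = 1 := b.one_of_mem_closedBall (by simp [b]; positivity)
    simp [this]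
  have hκ'i : Integrable κ' := hκ'd.integrable hκ'c
  refine ⟨fun N x => ∫ z, κ' z * (U g (x - (1 / (N : ℝ)) • z) - U g x), ?_, ?_, ?_⟩
  · obtain ⟨R, hR⟩ := h.cpt.isCompact.isBounded.subset_closedBall (0 : E)
    obtain ⟨N0, hN0⟩ := exists_nat_gt (R / (‖k‖ / 4))
    filter_upwards [eventually_ge_atTop N0, eventually_gt_atTop 0] with N hN hN1 x
    have hN1' : (0 : ℝ) < N := by exact_mod_cast hN1
    have e1 : U (fun ξ => m j ξ * g (ξ - (N : ℝ) • k)) x
        = ex (N * inner ℝ k x) * U (fun ξ => T κ' ((1 / (N : ℝ)) • ξ) * g ξ) x := by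
      have e2 : (fun ξ => m j ξ * g (ξ - (N : ℝ) • k))
          = fun ξ => (fun η => T κ' ((1 / (N : ℝ)) • η) * g η) (ξ - (N : ℝ) • k) := by
        ext ξ
        simp only
        by_cases hg : g (ξ - (N : ℝ) • k) = 0
        · rw [hg, mul_zero, mul_zero]
        · congr 1
          have h1 : ξ - (N : ℝ) • k ∈ tsupport g := subset_tsupport _ hg
          have h2 := hR h1
          rw [mem_closedBall_zero_iff] at h2
          rw [hTκ', hMf]
          have e3 : k + (1 / (N : ℝ)) • (ξ - (N : ℝ) • k) = (1 / (N : ℝ)) • ξ := by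
            rw [smul_sub, smul_smul, one_div, inv_mul_cancel₀ hN1'.ne', one_smul]
            abel
          have h3 : b ((1 / (N : ℝ)) • ξ) = 1 := by
            apply b.one_of_mem_closedBall
            rw [Metric.mem_closedBall, dist_eq_norm]
            have e4 : (1 / (N : ℝ)) • ξ - k = (1 / (N : ℝ)) • (ξ - (N : ℝ) • k) := by
              rw [← e3]; abel
            rw [e4, norm_smul, Real.norm_of_nonneg (by positivity)]
            show _ ≤ ‖k‖ / 4
            rw [one_div, inv_mul_le_iff₀ hN1']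
            rw [div_lt_iff₀ (by positivity)] at hN0
            have h5 : (N0 : ℝ) ≤ N := by exact_mod_cast hN
            nlinarith
          simp only [e3, h3, Complex.ofReal_one, mul_one]
          rw [m_smul j (by positivity)]
      rw [e2, U_shift (fun η => T κ' ((1 / (N : ℝ)) • η) * g η), inner_smul_left]
      simp
    rw [e1, conv_formula hκ'i h.integrable]
    congr 1
    have hb : Integrable fun z => κ' z * U g (x - (1 / (N : ℝ)) • z) := by
      obtain ⟨C, hC, hb⟩ := h.U_dec 0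
      refine (hκ'i.norm.const_mul C).mono' ((hκ'c.mul (h.U_cont.comp (by fun_prop))
        ).aestronglyMeasurable) (Eventually.of_forall fun z => ?_)
      rw [norm_mul, mul_comm]
      have := hb (x - (1 / (N : ℝ)) • z)
      simp only [pow_zero, mul_one] at this
      gcongr
    have hb2 : Integrable fun z => κ' z * U g x := hκ'i.mul_const _
    have : ∀ z, κ' z * (U g (x - (1 / (N : ℝ)) • z) - U g x)
        = κ' z * U g (x - (1 / (N : ℝ)) • z) - κ' z * U g x := fun z => by ring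
    simp_rw [this]
    rw [integral_sub hb hb2, integral_mul_const, hint]
    ring
  · intro N
    apply StronglyMeasurable.measurable
    apply StronglyMeasurable.integral_prod_right
      (f := fun x z => κ' z * (U g (x - (1 / (N : ℝ)) • z) - U g x))
    have hc := h.U_cont
    exact (by fun_prop : Continuous fun q : E × E =>
      κ' q.2 * (U g (q.1 - (1 / (N : ℝ)) • q.2) - U g q.1)).stronglyMeasurable
  · intro p hp
    have h1 := av hκ'c hκ'd h.U_cont h.U_dec hp
    have h2 : Tendsto (fun N : ℕ => 1 / (N : ℝ)) atTop (𝓝 0) := tendsto_one_div_atTop_nhds_zero_nat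
    exact h1.comp h2

end Pool.Agent.K7.H79.RZ
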