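import Pool.Agent.K7.H79.RZ.Dens

/-!
# One step: adding modulated waves to a field
-/

set_option autoImplicit false

open MeasureTheory Complex Real Filter Topology
open scoped SchwartzMap FourierTransform ENNReal NNReal ContDiff

namespace Pool.Agent.K7.H79.RZ

/-- values of the fields -/
abbrev V : Type := WithLp 2 (ℝ × E)

/-- the vector with components `a`, `b` -/
def mk (a : ℝ) (b : E) : V := WithLp.toLp 2 (a, b)

lemma mk_fst (a : ℝ) (b : E) : (mk a b).fst = a := rfl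
lemma mk_snd (a : ℝ) (b : E) : (mk a b).snd = b := rfl

lemma norm_mk (a : ℝ) (b : E) : ‖mk a b‖ = √(a ^ 2 + ‖b‖ ^ 2) := by
  rw [WithLp.prod_norm_eq_of_L2, mk_fst, mk_snd, Real.norm_eq_abs, sq_abs]

lemma mk_add (a a' : ℝ) (b b' : E) : mk a b + mk a' b' = mk (a + a') (b + b') := rfl

lemma V_ext {v w : V} (h1 : v.fst = w.fst) (h2 : v.snd = w.snd) : v = w := by
  obtain ⟨v1, v2⟩ := v
  obtain ⟨w1, w2⟩ := w
  change v1 = w1 at h1
  change v2 = w2 at h2
  rw [h1, h2]

lemma mk_zero : mk 0 0 = 0 := rfl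

lemma mk_continuous : Continuous fun q : ℝ × E => mk q.1 q.2 :=
  WithLp.prod_continuous_toLp 2 ℝ E

/-- the field of a wave of direction `k` and complex amplitude `c` -/
noncomputable def fl (k : E) (c : ℂ) : V := mk c.re ((c.im / ‖k‖) • k)

lemma fl_add (k : E) (c c' : ℂ) : fl k (c + c') = fl k c + fl k c' := by
  unfold fl
  rw [mk_add, ← add_smul, ← add_div]
  simp

lemma norm_fl_le (k : E) (c : ℂ) : ‖fl k c‖ ≤ ‖c‖ := by
  unfold fl
  rw [norm_mk, norm_smul, norm_div, norm_norm, Complex.norm_eq_sqrt_sq_add_sq]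
  apply Real.sqrt_le_sqrt
  have : ‖c.im‖ / ‖k‖ * ‖k‖ ≤ |c.im| := by
    rcases eq_or_ne ‖k‖ 0 with h | h
    · rw [h]; simp
    · rw [div_mul_cancel₀ _ h, Real.norm_eq_abs]
  have h2 : 0 ≤ ‖c.im‖ / ‖k‖ * ‖k‖ := by positivity
  have h3 := pow_le_pow_left₀ h2 this 2
  rw [sq_abs] at h3
  linarith

lemma fl_continuous (k : E) : Continuous (fl k) := by
  unfold fl
  exact mk_continuous.comp (by fun_prop : Continuous fun c : ℂ => (c.re, (c.im / ‖k‖) • k))

/-- the field `(Re U h, Re R_1 U h, Re R_2 U h)` -/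
noncomputable def field (h : E → ℂ) (x : E) : V :=
  mk (U h x).re (WithLp.toLp 2 fun j => (U (fun ξ => m j ξ * h ξ) x).re)

lemma toLp_add' (f g : Fin 2 → ℝ) :
    (WithLp.toLp 2 fun j => f j + g j : E) = WithLp.toLp 2 f + WithLp.toLp 2 g := rfl

lemma field_add {h h' : E → ℂ} (H : Adm h) (H' : Adm h') (x : E) :
    field (fun ξ => h ξ + h' ξ) x = field h x + field h' x := by
  unfold field
  rw [mk_add, H.sc.U_add H'.sc, Complex.add_re, ← toLp_add']
  congr 2
  ext j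
  have e : (fun ξ => m j ξ * (h ξ + h' ξ)) = fun ξ => m j ξ * h ξ + m j ξ * h' ξ := by
    ext ξ; ring
  rw [e, (H.m_mul j).sc.U_add (H'.m_mul j).sc, Complex.add_re]

lemma field_zero (x : E) : field (fun _ => 0) x = 0 := by
  unfold field U
  simp only [mul_zero, integral_zero, Complex.zero_re]
  rfl

lemma field_sum {ι : Type*} (s : Finset ι) {g : ι → E → ℂ} (h : ∀ i ∈ s, Adm (g i)) (x : E) :
    field (fun ξ => ∑ i ∈ s, g i ξ) x = ∑ i ∈ s, field (g i) x := by
  classical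
  induction s using Finset.induction_on with
  | empty => simp only [Finset.sum_empty]; exact field_zero x
  | insert i s hi ih =>
    simp_rw [Finset.sum_insert hi]
    rw [field_add (h i (Finset.mem_insert_self _ _))
      (Adm.sum s fun j hj => h j (Finset.mem_insert_of_mem hj)),
      ih fun j hj => h j (Finset.mem_insert_of_mem hj)]

lemma field_continuous {h : E → ℂ} (H : Adm h) : Continuous (field h) := by
  unfold field
  have h1 : Continuous fun x => (U h x).re := Complex.continuous_re.comp H.sc.U_cont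
  have h2 : Continuous fun x => (WithLp.toLp 2 fun j => (U (fun ξ => m j ξ * h ξ) x).re : E) := by
    apply (PiLp.continuous_toLp 2 _).comp
    apply continuous_pi
    intro j
    exact Complex.continuous_re.comp (H.m_mul j).sc.U_cont
  exact mk_continuous.comp (h1.prodMk h2)

/-- the field of a modulated function -/
lemma field_wave {g : E → ℂ} {k : E} {N : ℕ} {err : Fin 2 → E → ℂ}
    (he : ∀ j x, U (fun ξ => m j ξ * g (ξ - (N : ℝ) • k)) x
        = ex (N * inner ℝ k x) * (m j k * U g x + err j x)) (c : ℂ) (x : E) :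
    field (fun ξ => c * g (ξ - (N : ℝ) • k)) x
      = fl k (U g x * c * ex (N * inner ℝ k x)) +
        mk 0 (WithLp.toLp 2 fun j => (c * ex (N * inner ℝ k x) * err j x).re) := by
  unfold field fl
  rw [mk_add]
  congr 1
  · rw [U_const_mul, U_shift, inner_smul_left]
    simp only [conj_trivial, add_zero]
    congr 1
    ring
  · ext j
    have e : (fun ξ => m j ξ * (c * g (ξ - (N : ℝ) • k)))
        = fun ξ => c * (m j ξ * g (ξ - (N : ℝ) • k)) := by
      ext ξ; ring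
    simp only [PiLp.add_apply, PiLp.smul_apply, smul_eq_mul]
    rw [e, U_const_mul, he, m_eq]
    set w := U g x * c * ex (N * inner ℝ k x) with hw
    have e2 : c * (ex (↑N * inner ℝ k x) * (-I * ↑(k j) / ↑‖k‖ * U g x + err j x))
        = (-I * w) * (((k j / ‖k‖ : ℝ)) : ℂ) + c * ex (↑N * inner ℝ k x) * err j x := by
      rw [hw]; push_cast; ring
    rw [e2, Complex.add_re, Complex.re_mul_ofReal]
    congr 1
    simp only [neg_mul, Complex.neg_re, Complex.mul_re, Complex.I_re, zero_mul, Complex.I_im,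
      one_mul, zero_sub, neg_neg]
    ring

lemma norm_mk_zero_le (f : Fin 2 → ℝ) :
    ‖mk 0 (WithLp.toLp 2 f : E)‖ ≤ |f 0| + |f 1| := by
  rw [norm_mk, EuclideanSpace.norm_sq_eq]
  simp only [Fin.sum_univ_two, Real.norm_eq_abs, sq_abs]
  rw [Real.sqrt_le_left (by positivity)]
  nlinarith [abs_nonneg (f 0), abs_nonneg (f 1), sq_abs (f 0), sq_abs (f 1),
    mul_nonneg (abs_nonneg (f 0)) (abs_nonneg (f 1))]

/-- admissible functionals -/
structure Fun (p : ℝ) (Ψ : V → ℝ≥0∞) (C : ℝ≥0∞) : Prop where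
  meas : Measurable Ψ
  sub : ∀ v w, Ψ (v + w) ≤ Ψ v + Ψ w
  bd : ∀ v, Ψ v ≤ C * ‖v‖ₑ ^ p
  fin : C ≠ ⊤

lemma Fun.zero {p : ℝ} (hp : 0 < p) {Ψ : V → ℝ≥0∞} {C : ℝ≥0∞} (h : Fun p Ψ C) : Ψ 0 = 0 := by
  have := h.bd 0
  rw [enorm_zero, ENNReal.zero_rpow_of_pos hp, mul_zero] at this
  exact le_antisymm this bot_le

lemma Fun.sum_le {p : ℝ} (hp : 0 < p) {Ψ : V → ℝ≥0∞} {C : ℝ≥0∞} (h : Fun p Ψ C) {ι : Type*}
    (s : Finset ι) (f : ι → V) : Ψ (∑ i ∈ s, f i) ≤ ∑ i ∈ s, Ψ (f i) := by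
  classical
  induction s using Finset.induction_on with
  | empty => simp [h.zero hp]
  | insert i s hi ih =>
    rw [Finset.sum_insert hi, Finset.sum_insert hi]
    exact (h.sub _ _).trans (add_le_add_right ih _)

lemma err_bd {p : ℝ} (hp : 0 < p) (hp1 : p ≤ 1) {Ψ : V → ℝ≥0∞} {C : ℝ≥0∞} (h : Fun p Ψ C)
    {c : ℂ} (hc : ‖c‖ = 1) (e : Fin 2 → ℂ) :
    Ψ (mk 0 (WithLp.toLp 2 fun j => (c * e j).re)) ≤ C * ∑ j, ‖e j‖ₑ ^ p := by
  refine (h.bd _).trans (mul_le_mul_right ?_ _)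
  have h1 : ‖mk 0 (WithLp.toLp 2 fun j => (c * e j).re : E)‖ₑ ≤ ‖e 0‖ₑ + ‖e 1‖ₑ := by
    rw [← ofReal_norm, ← ofReal_norm, ← ofReal_norm, ← ENNReal.ofReal_add (norm_nonneg _)
      (norm_nonneg _)]
    apply ENNReal.ofReal_le_ofReal
    refine (norm_mk_zero_le _).trans (add_le_add ?_ ?_)
    all_goals
      refine (Complex.abs_re_le_norm _).trans (le_of_eq ?_)
      rw [norm_mul, hc, one_mul]
  rw [Fin.sum_univ_two]
  exact (ENNReal.rpow_le_rpow h1 hp.le).trans (ENNReal.rpow_add_le_add_rpow _ _ hp.le hp1)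

theorem step {p : ℝ} (hp : 0 < p) (hp1 : p ≤ 1) {Ψ : V → ℝ≥0∞} {C : ℝ≥0∞} (hΨ : Fun p Ψ C)
    {Ω : Type*} [MeasurableSpace Ω] (μ : Measure Ω) [IsProbabilityMeasure μ]
    {ι : Type*} [Fintype ι] (α : ι → E → ℂ) (hαm : ∀ i, Measurable (α i))
    (hα : ∀ i, MemLp (α i) (ENNReal.ofReal p) volume) (k : ι → E) (hk : ∀ i, k i ≠ 0)
    (χ : ι → Ω → ℂ) (hχm : ∀ i, Measurable (χ i)) (hχ : ∀ i φ, ‖χ i φ‖ = 1)
    {h0 : E → ℂ} (H0 : Adm h0) {I0 : ℝ≥0∞}
    (hI : ∀ N : ℕ, ∫⁻ φ, ∫⁻ x, Ψ (field h0 x + ∑ i, fl (k i)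
      (α i x * χ i φ * ex (N * inner ℝ (k i) x))) ∂volume ∂μ ≤ I0)
    (B : ℝ) {η : ℝ≥0∞} (hη : η ≠ 0) :
    ∃ h1, Adm h1 ∧ (∀ ξ, ‖ξ‖ ≤ B → h1 ξ = h0 ξ) ∧ ∫⁻ x, Ψ (field h1 x) ≤ I0 + η := by
  classical
  have hη2 : η / 2 ≠ 0 := by simp [hη]
  -- the amplitudes
  obtain ⟨η', hη', hη'2⟩ : ∃ η' : ℝ≥0∞, η' ≠ 0 ∧ (Fintype.card ι : ℝ≥0∞) * (C * η') ≤ η / 2 := by
    have hD : (Fintype.card ι : ℝ≥0∞) * C + 1 ≠ ⊤ := by
      exact ENNReal.add_ne_top.2 ⟨ENNReal.mul_ne_top (ENNReal.natCast_ne_top _) hΨ.fin,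
        ENNReal.one_ne_top⟩
    refine ⟨η / 2 / ((Fintype.card ι : ℝ≥0∞) * C + 1), ?_, ?_⟩
    · intro h
      rw [ENNReal.div_eq_zero_iff] at h
      rcases h with h | h
      · exact hη2 h
      · exact hD h
    · rw [← mul_assoc]
      calc (Fintype.card ι : ℝ≥0∞) * C * (η / 2 / ((Fintype.card ι : ℝ≥0∞) * C + 1))
          ≤ ((Fintype.card ι : ℝ≥0∞) * C + 1) * (η / 2 / ((Fintype.card ι : ℝ≥0∞) * C + 1)) :=
            mul_le_mul_left le_self_add _
        _ ≤ η / 2 := ENNReal.mul_div_le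
  choose g hg hga using fun i => dens hp hp1 (hα i) hη'
  choose err herr herrm herrt using fun i j => riesz_shift (hg i) (hk i) j
  -- the total error
  have htend : Tendsto (fun N : ℕ => ∑ i, C * ∑ j, ∫⁻ x, ‖err i j N x‖ₑ ^ p) atTop (𝓝 0) := by
    have h0 : (0 : ℝ≥0∞) = ∑ i : ι, C * ∑ j : Fin 2, 0 := by simp
    rw [h0]
    apply tendsto_finsetSum
    intro i _
    apply ENNReal.Tendsto.const_mul _ (Or.inr hΨ.fin)
    apply tendsto_finsetSum
    intro j _
    exact herrt i j p hp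
  have hev1 : ∀ᶠ N : ℕ in atTop, ∑ i, C * ∑ j, ∫⁻ x, ‖err i j N x‖ₑ ^ p < η / 2 :=
    htend.eventually_lt_const (pos_iff_ne_zero.2 hη2)
  have hev2 : ∀ᶠ N : ℕ in atTop, ∀ i j, ∀ x, U (fun ξ => m j ξ * g i (ξ - (N : ℝ) • k i)) x
        = ex (N * inner ℝ (k i) x) * (m j (k i) * U (g i) x + err i j N x) := by
    rw [eventually_all]
    intro i
    rw [eventually_all]
    intro j
    exact herr i j
  have hev3 : ∀ᶠ N : ℕ in atTop, ∀ i, ∀ ξ : E, ‖ξ‖ ≤ B → g i (ξ - (N : ℝ) • k i) = 0 := by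
    rw [eventually_all]
    intro i
    exact (hg i).shift_far (hk i) B
  have hev4 : ∀ᶠ N : ℕ in atTop, ∀ i, Adm fun ξ => g i (ξ - (N : ℝ) • k i) := by
    rw [eventually_all]
    intro i
    exact (hg i).shift_adm (hk i)
  obtain ⟨N, hN1, hN2, hN3, hN4⟩ := (hev1.and (hev2.and (hev3.and hev4))).exists
  -- the phase
  set G : Ω → E → V := fun φ x => field h0 x + ∑ i, fl (k i)
      (α i x * χ i φ * ex (N * inner ℝ (k i) x)) with hG
  have hGm : Measurable (Function.uncurry G) := by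
    apply Measurable.add
    · exact (field_continuous H0).measurable.comp measurable_snd
    · refine Finset.measurable_sum _ fun i _ => ?_
      apply (fl_continuous (k i)).measurable.comp
      apply Measurable.mul
      · exact ((hαm i).comp measurable_snd).mul ((hχm i).comp measurable_fst)
      · exact (continuous_ex.comp (by fun_prop : Continuous fun x : E =>
          (N : ℝ) * inner ℝ (k i) x)).measurable.comp measurable_snd
  have hΨG : Measurable (Function.uncurry fun φ x => Ψ (G φ x)) := hΨ.meas.comp hGm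
  obtain ⟨φ, hφ⟩ := exists_le_lintegral (μ := μ) (f := fun φ => ∫⁻ x, Ψ (G φ x))
    (hΨG.lintegral_prod_right').aemeasurable
  have hP2 : ∫⁻ x, Ψ (G φ x) ≤ I0 := hφ.trans (hI N)
  refine ⟨fun ξ => h0 ξ + ∑ i, χ i φ * g i (ξ - (N : ℝ) • k i), ?_, ?_, ?_⟩
  · exact H0.add (Adm.sum _ fun i _ => (hN4 i).const_mul _)
  · intro ξ hξ
    have e0 : ∑ i, χ i φ * g i (ξ - (N : ℝ) • k i) = 0 :=
      Finset.sum_eq_zero fun i _ => by rw [hN3 i ξ hξ, mul_zero]
    change h0 ξ + ∑ i, χ i φ * g i (ξ - (N : ℝ) • k i) = h0 ξ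
    rw [e0, add_zero]
  · have hpt : ∀ x, Ψ (field (fun ξ => h0 ξ + ∑ i, χ i φ * g i (ξ - (N : ℝ) • k i)) x)
        ≤ Ψ (G φ x) + (∑ i, C * ‖U (g i) x - α i x‖ₑ ^ p + ∑ i, C * ∑ j, ‖err i j N x‖ₑ ^ p) := by
      intro x
      rw [field_add H0 (Adm.sum _ fun i _ => (hN4 i).const_mul _),
        field_sum _ fun i _ => (hN4 i).const_mul _]
      have e1 : ∀ i, field (fun ξ => χ i φ * g i (ξ - (N : ℝ) • k i)) x
          = fl (k i) (α i x * χ i φ * ex (N * inner ℝ (k i) x))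
            + (fl (k i) ((U (g i) x - α i x) * χ i φ * ex (N * inner ℝ (k i) x))
            + mk 0 (WithLp.toLp 2 fun j =>
              (χ i φ * ex (N * inner ℝ (k i) x) * err i j N x).re)) := by
        intro i
        rw [field_wave (fun j x => hN2 i j x), ← add_assoc, ← fl_add]
        congr 2
        ring
      simp_rw [e1]
      rw [Finset.sum_add_distrib, ← add_assoc]
      refine (hΨ.sub _ _).trans (add_le_add le_rfl ?_)
      refine (hΨ.sum_le hp _ _).trans ?_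
      rw [← Finset.sum_add_distrib]
      refine Finset.sum_le_sum fun i _ => ?_
      refine (hΨ.sub _ _).trans (add_le_add ?_ ?_)
      · refine (hΨ.bd _).trans (mul_le_mul_right (ENNReal.rpow_le_rpow ?_ hp.le) _)
        rw [← ofReal_norm, ← ofReal_norm]
        apply ENNReal.ofReal_le_ofReal
        refine (norm_fl_le _ _).trans (le_of_eq ?_)
        rw [norm_mul, norm_mul, hχ, norm_ex, mul_one, mul_one]
      · exact err_bd hp hp1 hΨ (c := χ i φ * ex (N * inner ℝ (k i) x))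
          (by rw [norm_mul, hχ, norm_ex, mul_one]) (fun j => err i j N x)
    have hm1 : Measurable fun x => Ψ (G φ x) := hΨG.of_uncurry_left (x := φ)
    have hm2 : ∀ i, Measurable fun x => C * ‖U (g i) x - α i x‖ₑ ^ p := fun i =>
      (((hg i).U_cont.measurable.sub (hαm i)).enorm.pow_const _).const_mul _
    have hm3 : ∀ i j, Measurable fun x => ‖err i j N x‖ₑ ^ p := fun i j =>
      (herrm i j N).enorm.pow_const _
    calc ∫⁻ x, Ψ (field (fun ξ => h0 ξ + ∑ i, χ i φ * g i (ξ - (N : ℝ) • k i)) x)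
        ≤ ∫⁻ x, (Ψ (G φ x) + (∑ i, C * ‖U (g i) x - α i x‖ₑ ^ p
            + ∑ i, C * ∑ j, ‖err i j N x‖ₑ ^ p)) := lintegral_mono hpt
      _ = (∫⁻ x, Ψ (G φ x)) + ((∑ i, C * ∫⁻ x, ‖U (g i) x - α i x‖ₑ ^ p)
            + ∑ i, C * ∑ j, ∫⁻ x, ‖err i j N x‖ₑ ^ p) := by
          rw [lintegral_add_left hm1, lintegral_add_left (Finset.measurable_sum _ fun i _ => hm2 i),
            lintegral_finsetSum _ fun i _ => hm2 i, lintegral_finsetSum _ fun i _ =>
              (Finset.measurable_sum _ fun j _ => hm3 i j).const_mul _]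
          congr 2
          · refine Finset.sum_congr rfl fun i _ => ?_
            exact lintegral_const_mul _ (((hg i).U_cont.measurable.sub (hαm i)).enorm.pow_const _)
          · refine Finset.sum_congr rfl fun i _ => ?_
            rw [lintegral_const_mul _ (Finset.measurable_sum _ fun j _ => hm3 i j),
              lintegral_finsetSum _ fun j _ => hm3 i j]
      _ ≤ I0 + (η / 2 + η / 2) := by
          refine add_le_add hP2 (add_le_add ?_ hN1.le)
          calc ∑ i, C * ∫⁻ x, ‖U (g i) x - α i x‖ₑ ^ p ≤ ∑ i : ι, C * η' :=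
                Finset.sum_le_sum fun i _ => mul_le_mul_right (hga i) _
            _ = (Fintype.card ι : ℝ≥0∞) * (C * η') := by
                rw [Finset.sum_const, Finset.card_univ, nsmul_eq_mul]
            _ ≤ η / 2 := hη'2
      _ = I0 + η := by rw [ENNReal.add_halves]

end Pool.Agent.K7.H79.RZ
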